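import Pool.Agent.Lib.MP_7ad892_an.Defs

open scoped ZeroAtInfty Topology Classical
open Filter

namespace MP_7ad892_an

variable {Ω : Type*} [TopologicalSpace Ω] [T2Space Ω] [LocallyCompactSpace Ω]
  {σ : Ω → Ω} {hσ : IsProperMap σ} {A : Type*} [NonUnitalNormedRing A] [NormedSpace ℂ A]
  [IsScalarTower ℂ A A] [SMulCommClass ℂ A A]

/-- Covariant system in a normed algebra `A`, generating a dense subalgebra. -/
structure CovSys {Ω : Type*} [TopologicalSpace Ω] [T2Space Ω] [LocallyCompactSpace Ω]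
    {σ : Ω → Ω} (hσ : IsProperMap σ) (A : Type*) [NonUnitalNormedRing A] [NormedSpace ℂ A] where
  π : C₀(Ω, ℂ) →ₗ[ℂ] A
  t : C₀(Ω, ℂ) →ₗ[ℂ] A
  π_mul : ∀ f g, π (f * g) = π f * π g
  t_left : ∀ f F, t (pull hσ f * F) = π f * t F
  t_right : ∀ F g, t (F * g) = t F * π g
  dense : ∀ S : NonUnitalSubalgebra ℂ A, IsClosed (S : Set A) → (∀ f, π f ∈ S) →
    (∀ F, t F ∈ S) → ∀ a, a ∈ S

/-- Finite-dimensional representation attached to an orbit segment `x, σ x, …, σ^(N-1) x` of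
distinct points and a weight `w ≠ 0`. -/
structure FinRep (s : CovSys hσ A) (x : Ω) (N : ℕ) (w : ℂ) where
  ρ : A →L[ℂ] Matrix (Fin N) (Fin N) ℂ
  map_mul : ∀ a b, ρ (a * b) = ρ a * ρ b
  map_π : ∀ f, ρ (s.π f) = Matrix.diagonal fun i : Fin N => f (σ^[i] x)
  map_t : ∀ F, ρ (s.t F) = Matrix.of fun a b : Fin N =>
    if σ^[a] x = σ (σ^[b] x) then w * F (σ^[b] x) else 0
  inj : Function.Injective fun i : Fin N => σ^[i] x
  w_ne : w ≠ 0

end MP_7ad892_an
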