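import Pool.Agent.Lib.MP_7ad892_an.Orbit
import Pool.Agent.Lib.MP_7ad892_an.FinRep

/-!
# MP_7ad892_an : the finite-dimensional representations built from an orbit representation
-/

open scoped ZeroAtInfty Topology InnerProductSpace Classical
open Filter

namespace MP_7ad892_an

section Vectors

variable {Ω : Type*} (σ : Ω → Ω) (x : Ω) (N : ℕ) (w : ℂ)

/-- weighted transition matrix of the orbit segment -/
noncomputable def Tm : Matrix (Fin N) (Fin N) ℂ :=
  Matrix.of fun a b => if σ^[a] x = σ (σ^[b] x) then w else 0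

/-- the vectors `T^n e₀` -/
noncomputable def uv : ℕ → (Fin N → ℂ)
  | 0 => fun a => if (a : ℕ) = 0 then 1 else 0
  | n + 1 => (Tm σ x N w).mulVec (uv n)

variable {σ x N w}

theorem uv_step (hinj : Function.Injective fun i : Fin N => σ^[i] x) (n : ℕ)
    (h : ∀ a, uv σ x N w n a = if σ^[a] x = σ^[n] x then w ^ n else 0) (b : Fin N)
    (hb : σ^[b] x = σ^[n] x) :
    ∀ a, uv σ x N w (n + 1) a = if σ^[a] x = σ^[n + 1] x then w ^ (n + 1) else 0 := by
  intro a
  change (Tm σ x N w).mulVec (uv σ x N w n) a = _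
  rw [Matrix.mulVec, dotProduct, Finset.sum_eq_single b]
  · rw [h, if_pos hb, Tm, Matrix.of_apply, hb, Function.iterate_succ_apply']
    split_ifs
    · ring
    · simp
  · intro c _ hc
    rw [h, if_neg, mul_zero]
    intro h2
    exact hc (hinj (h2.trans hb.symm))
  · simp

theorem uv_zero' (hN : 0 < N) (hinj : Function.Injective fun i : Fin N => σ^[i] x) :
    ∀ a, uv σ x N w 0 a = if σ^[a] x = σ^[0] x then w ^ 0 else 0 := by
  intro a
  change (if (a : ℕ) = 0 then (1 : ℂ) else 0) = _
  rw [pow_zero]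
  congr 1
  apply propext
  constructor
  · intro h; rw [h]
  · intro h
    have := @hinj a ⟨0, hN⟩ h
    rw [this]

/-- dichotomy for the vectors `T^n e₀` -/
theorem uv_dichotomy (hN : 0 < N) (hinj : Function.Injective fun i : Fin N => σ^[i] x) (n : ℕ) :
    (∀ a, uv σ x N w n a = if σ^[a] x = σ^[n] x then w ^ n else 0) ∨
      (∀ a, uv σ x N w n a = 0) := by
  induction n with
  | zero => exact Or.inl (uv_zero' hN hinj)
  | succ n ih =>
    rcases ih with h | h
    · by_cases hb : ∃ b : Fin N, σ^[b] x = σ^[n] x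
      · obtain ⟨b, hb⟩ := hb
        exact Or.inl (uv_step hinj n h b hb)
      · push Not at hb
        right
        intro a
        change (Tm σ x N w).mulVec (uv σ x N w n) a = _
        rw [Matrix.mulVec, dotProduct]
        apply Finset.sum_eq_zero
        intro c _
        rw [h, if_neg (hb c), mul_zero]
    · right
      intro a
      change (Tm σ x N w).mulVec (uv σ x N w n) a = _
      rw [Matrix.mulVec, dotProduct]
      apply Finset.sum_eq_zero
      intro c _
      rw [h, mul_zero]

theorem uv_of_mem (hN : 0 < N) (hinj : Function.Injective fun i : Fin N => σ^[i] x) (n : ℕ)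
    (hmem : ∀ m < n, ∃ b : Fin N, σ^[b] x = σ^[m] x) :
    ∀ a, uv σ x N w n a = if σ^[a] x = σ^[n] x then w ^ n else 0 := by
  induction n with
  | zero => exact uv_zero' hN hinj
  | succ n ih =>
    obtain ⟨b, hb⟩ := hmem n (Nat.lt_succ_self n)
    exact uv_step hinj n (ih fun m hm => hmem m (hm.trans (Nat.lt_succ_self n))) b hb

theorem uv_small (hinj : Function.Injective fun i : Fin N => σ^[i] x) (m : Fin N) :
    uv σ x N w m = Pi.single m (w ^ (m : ℕ)) := by
  ext a
  rw [uv_of_mem (Fin.pos m) hinj m (fun k hk => ⟨⟨k, hk.trans m.2⟩, rfl⟩) a, Pi.single_apply]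
  congr 1
  apply propext
  constructor
  · intro h; exact hinj h
  · intro h; rw [h]

theorem uv_norm_le (hN : 0 < N) (hinj : Function.Injective fun i : Fin N => σ^[i] x) (n : ℕ)
    (a : Fin N) : ‖uv σ x N w n a‖ ≤ ‖w‖ ^ n := by
  rcases uv_dichotomy (w := w) hN hinj n with h | h
  · rw [h]
    split_ifs
    · rw [norm_pow]
    · rw [norm_zero]; positivity
  · rw [h, norm_zero]; positivity

theorem uv_diag (hN : 0 < N) (hinj : Function.Injective fun i : Fin N => σ^[i] x) (n : ℕ)
    (f : Ω → ℂ) (a : Fin N) : f (σ^[a] x) * uv σ x N w n a = f (σ^[n] x) * uv σ x N w n a := by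
  rcases uv_dichotomy (w := w) hN hinj n with h | h
  · rw [h]
    split_ifs with h2
    · rw [h2]
    · simp
  · rw [h]; simp

end Vectors

/-- the collapsing map `K : ℓ²(ℕ) → ℂ^N`, `e_n ↦ u_n` -/
theorem exists_collapse {N : ℕ} {w : ℂ} (hw : ‖w‖ < 1) (u : ℕ → Fin N → ℂ)
    (hu : ∀ n a, ‖u n a‖ ≤ ‖w‖ ^ n) :
    ∃ K : H →L[ℂ] (Fin N → ℂ), (∀ n, K (be n) = u n) ∧
      ∀ (v : H) a, HasSum (fun n => (v : ℕ → ℂ) n * u n a) (K v a) := by
  have hmem : ∀ a, Memℓp (fun n => star (u n a)) 2 := by
    intro a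
    apply memℓp_gen
    apply Summable.of_nonneg_of_le (g := fun n => ‖star (u n a)‖ ^ (2 : ENNReal).toReal)
      (f := fun n => ‖w‖ ^ n)
    · intro n; positivity
    · intro n
      have h1 : ‖u n a‖ ≤ 1 := (hu n a).trans (pow_le_one₀ (norm_nonneg _) hw.le)
      rw [norm_star]
      simp only [ENNReal.toReal_ofNat, Real.rpow_ofNat]
      calc ‖u n a‖ ^ 2 ≤ ‖u n a‖ := by nlinarith [norm_nonneg (u n a)]
        _ ≤ ‖w‖ ^ n := hu n a
    · exact summable_geometric_of_lt_one (norm_nonneg _) hw
  let ψ : Fin N → (H →L[ℂ] ℂ) := fun a => innerSL ℂ (⟨_, hmem a⟩ : H)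
  have hsum : ∀ (v : H) a, HasSum (fun n => (v : ℕ → ℂ) n * u n a) (ψ a v) := by
    intro v a
    have := lp.hasSum_inner (𝕜 := ℂ) (⟨_, hmem a⟩ : H) v
    simpa [ψ] using this
  refine ⟨ContinuousLinearMap.pi ψ, ?_, ?_⟩
  · intro n
    ext a
    have h1 := hsum (be n) a
    have h2 : HasSum (fun m => ((be n : H) : ℕ → ℂ) m * u m a) (u n a) := by
      have := hasSum_ite_eq n (u n a)
      convert this using 2 with m
      rw [be_apply]
      split_ifs with h
      · rw [h, one_mul]
      · rw [zero_mul]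
    exact h1.unique h2
  · intro v a
    exact hsum v a

section Build

variable {Ω : Type*} [TopologicalSpace Ω] [T2Space Ω] [LocallyCompactSpace Ω]
  {σ : Ω → Ω} {hσ : IsProperMap σ} {A : Type*} [NonUnitalNormedRing A] [NormedSpace ℂ A]
  {s : CovSys hσ A} {x : Ω} {N : ℕ} {w : ℂ}

/-- Existence of the finite-dimensional representations, given the orbit representation `Θ`. -/
theorem exists_finRep (Θ : A →L[ℂ] (H →L[ℂ] H)) (hΘ : ∀ a b, Θ (a * b) = Θ a * Θ b)
    (hπ : ∀ f n, Θ (s.π f) (be n) = f (σ^[n] x) • be n)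
    (ht : ∀ F n, Θ (s.t F) (be n) = F (σ^[n] x) • be (n + 1))
    (hN : 0 < N) (hinj : Function.Injective fun i : Fin N => σ^[i] x)
    (hw : ‖w‖ < 1) (hw0 : w ≠ 0) :
    ∃ (r : FinRep s x N w) (K : H →L[ℂ] (Fin N → ℂ)),
      (∀ (v : H) a, HasSum (fun n => (v : ℕ → ℂ) n * uv σ x N w n a) (K v a)) ∧
      ∀ a v, K (Θ a v) = (r.ρ a).mulVec (K v) := by
  obtain ⟨K, hK, hKs⟩ := exists_collapse hw (uv σ x N w) (uv_norm_le hN hinj)
  -- the matrix of `a`
  let ρ₀ : A →ₗ[ℂ] Matrix (Fin N) (Fin N) ℂ :=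
    { toFun := fun a => Matrix.of fun i m => (w ^ (m : ℕ))⁻¹ * K (Θ a (be m)) i
      map_add' := fun a b => by
        ext i m
        simp [mul_add]
      map_smul' := fun c a => by
        ext i m
        simp [mul_left_comm] }
  have hcont : Continuous ρ₀ := by
    refine continuous_matrix fun i m => ?_
    change Continuous fun a => (w ^ (m : ℕ))⁻¹ * K (Θ a (be m)) i
    refine continuous_const.mul ?_
    exact (continuous_apply i).comp (K.continuous.comp
      ((ContinuousLinearMap.apply ℂ H (be m)).continuous.comp Θ.continuous))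
  let ρ : A →L[ℂ] Matrix (Fin N) (Fin N) ℂ := ⟨ρ₀, hcont⟩
  have hρ_apply : ∀ a i m, ρ a i m = (w ^ (m : ℕ))⁻¹ * K (Θ a (be m)) i := fun a i m => rfl
  -- uniqueness
  have huniq : ∀ a (R : Matrix (Fin N) (Fin N) ℂ), (∀ v, K (Θ a v) = R.mulVec (K v)) →
      ρ a = R := by
    intro a R hR
    ext i m
    rw [hρ_apply, hR, hK, uv_small hinj m, Matrix.mulVec_single]
    have : w ^ (m : ℕ) ≠ 0 := pow_ne_zero _ hw0
    simp
    field_simp
  have hgenπ : ∀ f v, K (Θ (s.π f) v) =
      (Matrix.diagonal fun i : Fin N => f (σ^[i] x)).mulVec (K v) := by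
    intro f v
    have h : K ∘L Θ (s.π f) = (LinearMap.toContinuousLinearMap (Matrix.mulVecLin
        (Matrix.diagonal fun i : Fin N => f (σ^[i] x)))) ∘L K := by
      apply H_ext
      intro n
      change K (Θ (s.π f) (be n)) = (Matrix.diagonal _).mulVec (K (be n))
      rw [hπ, map_smul, hK]
      ext a
      rw [Matrix.mulVec_diagonal, Pi.smul_apply, smul_eq_mul]
      exact (uv_diag hN hinj n f a).symm
    exact congrArg (fun T : H →L[ℂ] (Fin N → ℂ) => T v) h
  have hgent : ∀ F v, K (Θ (s.t F) v) = (Matrix.of fun a b : Fin N =>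
      if σ^[a] x = σ (σ^[b] x) then w * F (σ^[b] x) else 0).mulVec (K v) := by
    intro F v
    have hR : (Matrix.of fun a b : Fin N =>
        if σ^[a] x = σ (σ^[b] x) then w * F (σ^[b] x) else 0) =
        Tm σ x N w * Matrix.diagonal fun i : Fin N => F (σ^[i] x) := by
      ext a b
      rw [Matrix.mul_diagonal, Matrix.of_apply, Tm, Matrix.of_apply]
      split_ifs <;> simp
    have h : K ∘L Θ (s.t F) = (LinearMap.toContinuousLinearMap (Matrix.mulVecLin
        (Tm σ x N w * Matrix.diagonal fun i : Fin N => F (σ^[i] x)))) ∘L K := by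
      apply H_ext
      intro n
      change K (Θ (s.t F) (be n)) = (Tm σ x N w * Matrix.diagonal _).mulVec (K (be n))
      rw [ht, map_smul, hK, hK, ← Matrix.mulVec_mulVec]
      have h2 : (Matrix.diagonal fun i : Fin N => F (σ^[i] x)).mulVec (uv σ x N w n) =
          F (σ^[n] x) • uv σ x N w n := by
        ext a
        rw [Matrix.mulVec_diagonal, Pi.smul_apply, smul_eq_mul]
        exact uv_diag hN hinj n F a
      rw [h2, Matrix.mulVec_smul]
      rfl
    rw [hR]
    exact congrArg (fun T : H →L[ℂ] (Fin N → ℂ) => T v) h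
  -- the invariance
  let S : NonUnitalSubalgebra ℂ A :=
    { carrier := {a | ∀ v, K (Θ a v) = (ρ a).mulVec (K v)}
      add_mem' := fun {a b} ha hb v => by
        rw [map_add, map_add, add_apply, map_add, ha, hb, Matrix.add_mulVec]
      zero_mem' := fun v => by simp
      mul_mem' := fun {a b} ha hb => by
        have h : ∀ v, K (Θ (a * b) v) = (ρ a * ρ b).mulVec (K v) := by
          intro v
          rw [hΘ, ContinuousLinearMap.mul_def, ContinuousLinearMap.comp_apply, ha, hb,
            Matrix.mulVec_mulVec]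
        intro v
        rw [huniq _ _ h]
        exact h v
      smul_mem' := fun c a ha v => by
        rw [map_smul, map_smul, smul_apply, map_smul, ha,
          Matrix.smul_mulVec] }
  have hScl : IsClosed (S : Set A) := by
    have : (S : Set A) = ⋂ v : H, {a | K (Θ a v) = (ρ a).mulVec (K v)} := by
      ext a
      simp only [Set.mem_iInter]
      rfl
    rw [this]
    refine isClosed_iInter fun v => isClosed_eq ?_ ?_
    · exact K.continuous.comp ((ContinuousLinearMap.apply ℂ H v).continuous.comp Θ.continuous)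
    · exact ρ.continuous.matrix_mulVec continuous_const
  have hall : ∀ a, ∀ v, K (Θ a v) = (ρ a).mulVec (K v) := by
    intro a
    refine s.dense S hScl ?_ ?_ a
    · intro f v
      rw [huniq _ _ (hgenπ f)]
      exact hgenπ f v
    · intro F v
      rw [huniq _ _ (hgent F)]
      exact hgent F v
  refine ⟨⟨ρ, ?_, ?_, ?_, hinj, hw0⟩, K, hKs, hall⟩
  · intro a b
    apply huniq
    intro v
    rw [hΘ, ContinuousLinearMap.mul_def, ContinuousLinearMap.comp_apply, hall, hall,
      Matrix.mulVec_mulVec]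
  · intro f
    exact huniq _ _ (hgenπ f)
  · intro F
    exact huniq _ _ (hgent F)

end Build

end MP_7ad892_an
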