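import Mathlib

/-!
# MP_7ad892_an : definitions

Dynamical systems `(Ω, σ)`, the C*-correspondence `X` of `(Ω, Ω, r = σ, s = id)`, Toeplitz
representations of `X`, the universal Toeplitz representation, the semicrossed product
`C₀(Ω) ×_σ ℤ⁺`, derivations and approximately local derivations.
-/

open scoped ZeroAtInfty Topology
open Filter

namespace MP_7ad892_an

universe u

section Correspondence

variable {Ω : Type*} [TopologicalSpace Ω] [T2Space Ω] [LocallyCompactSpace Ω]

/-- `f ∘ σ` for `f ∈ C₀(Ω)` and a continuous proper map `σ : Ω → Ω`. -/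
noncomputable def pull {σ : Ω → Ω} (hσ : IsProperMap σ) (f : C₀(Ω, ℂ)) : C₀(Ω, ℂ) where
  toFun x := f (σ x)
  continuous_toFun := f.continuous.comp hσ.continuous
  zero_at_infty' := f.zero_at_infty'.comp (isProperMap_iff_tendsto_cocompact.1 hσ).2

@[simp] theorem pull_apply {σ : Ω → Ω} (hσ : IsProperMap σ) (f : C₀(Ω, ℂ)) (x : Ω) :
    pull hσ f x = f (σ x) := rfl

/-- A Toeplitz representation `(π, t)`, in a C*-algebra `B`, of the C*-correspondence `X` over
`C₀(Ω)` of the dynamical system `(Ω, σ)`.  As a Banach space `X = C₀(Ω)`; the bimodule actions are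
`f · F · g = (f ∘ σ) F g` and the inner product is `⟨F | G⟩ = conj F * G`. -/
structure ToeplitzRep {σ : Ω → Ω} (hσ : IsProperMap σ) (B : Type*) [NonUnitalCStarAlgebra B] where
  /-- the *-homomorphism `π : C₀(Ω) → B` -/
  π : C₀(Ω, ℂ) →⋆ₙₐ[ℂ] B
  /-- the linear map `t : X → B` -/
  t : C₀(Ω, ℂ) →ₗ[ℂ] B
  /-- `t (f · F) = π f * t F` -/
  t_left : ∀ f F : C₀(Ω, ℂ), t (pull hσ f * F) = π f * t F
  /-- `t (F · g) = t F * π g` -/
  t_right : ∀ F g : C₀(Ω, ℂ), t (F * g) = t F * π g
  /-- `(t F)* (t G) = π ⟨F | G⟩` -/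
  t_inner : ∀ F G : C₀(Ω, ℂ), star (t F) * t G = π (star F * G)

end Correspondence

section Universal

variable {Ω : Type u} [TopologicalSpace Ω] [T2Space Ω] [LocallyCompactSpace Ω]
  {σ : Ω → Ω} {hσ : IsProperMap σ} {B : Type u} [NonUnitalCStarAlgebra B]

/-- `ρ` is the universal Toeplitz representation: `B` is the C*-algebra generated by its range, and
every Toeplitz representation in any C*-algebra `C` factors through `ρ` by a *-homomorphism
`B → C`. -/
structure ToeplitzRep.IsUniversal (ρ : ToeplitzRep hσ B) : Prop where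
  generates : (NonUnitalStarAlgebra.adjoin ℂ
    (Set.range ρ.π ∪ Set.range ρ.t)).topologicalClosure = ⊤
  lift : ∀ (C : Type u) [NonUnitalCStarAlgebra C] (ρ' : ToeplitzRep hσ C),
    ∃ Φ : B →⋆ₙₐ[ℂ] C, (∀ f, Φ (ρ.π f) = ρ'.π f) ∧ ∀ F, Φ (ρ.t F) = ρ'.t F

/-- For the universal Toeplitz representation `(π, t)` of `X` in `B = 𝒯_X`, this is the semicrossed
product `C₀(Ω) ×_σ ℤ⁺ = 𝒯_X⁺`: the norm-closed subalgebra of `B` generated by all `π f` and
`t F`. -/
def ToeplitzRep.semicrossed (ρ : ToeplitzRep hσ B) : NonUnitalSubalgebra ℂ B :=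
  (NonUnitalAlgebra.adjoin ℂ (Set.range ρ.π ∪ Set.range ρ.t)).topologicalClosure

/-- The semicrossed product carries the norm of `B`. -/
noncomputable instance (ρ : ToeplitzRep hσ B) : NormedSpace ℂ ρ.semicrossed where
  norm_smul_le c a := norm_smul_le c (a : B)

end Universal

section Derivations

variable {A : Type*} [NonUnitalNormedRing A] [NormedSpace ℂ A]

/-- A bounded linear map `D : A → A` is a derivation. -/
def IsDer (D : A →L[ℂ] A) : Prop := ∀ a b : A, D (a * b) = D a * b + a * D b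

/-- A bounded linear map `δ : A → A` is an approximately local derivation: for each `a` there are
(bounded) derivations `D n` with `δ a = lim D n a`. -/
def IsApproxLocalDer (δ : A →L[ℂ] A) : Prop :=
  ∀ a : A, ∃ D : ℕ → A →L[ℂ] A, (∀ n, IsDer (D n)) ∧ Tendsto (fun n => D n a) atTop (𝓝 (δ a))

end Derivations

end MP_7ad892_an
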