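import Pool.Agent.Lib.MP_7ad892_an.Defs

/-!
# MP_7ad892_an : factorisation and peak functions in `C₀(Ω)`
-/

open scoped ZeroAtInfty Topology
open Filter

namespace MP_7ad892_an

variable {Ω : Type*} [TopologicalSpace Ω]

/-- composition on the left with a continuous function fixing `0` -/
noncomputable def lcomp (φ : ℂ → ℂ) (hφ : Continuous φ) (h0 : φ 0 = 0) (F : C₀(Ω, ℂ)) :
    C₀(Ω, ℂ) where
  toFun x := φ (F x)
  continuous_toFun := hφ.comp F.continuous
  zero_at_infty' := by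
    have h1 : Tendsto φ (𝓝 0) (𝓝 0) := by
      have := hφ.tendsto 0
      rwa [h0] at this
    exact h1.comp F.zero_at_infty'

theorem lcomp_apply (φ : ℂ → ℂ) (hφ : Continuous φ) (h0 : φ 0 = 0) (F : C₀(Ω, ℂ)) (x : Ω) :
    lcomp φ hφ h0 F x = φ (F x) := rfl

theorem continuous_sq1 : Continuous (fun z : ℂ => ((Real.sqrt ‖z‖ : ℝ) : ℂ)) := by
  fun_prop

theorem continuous_sq2 : Continuous (fun z : ℂ => z / ((Real.sqrt ‖z‖ : ℝ) : ℂ)) := by
  rw [continuous_iff_continuousAt]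
  intro z
  by_cases hz : z = 0
  · subst hz
    have hb : ∀ z : ℂ, ‖z / ((Real.sqrt ‖z‖ : ℝ) : ℂ)‖ ≤ Real.sqrt ‖z‖ := by
      intro z
      rw [norm_div, Complex.norm_real, Real.norm_of_nonneg (Real.sqrt_nonneg _), Real.div_sqrt]
    rw [ContinuousAt]
    simp only [norm_zero, Real.sqrt_zero, Complex.ofReal_zero, div_zero]
    apply squeeze_zero_norm hb
    have : Tendsto (fun z : ℂ => Real.sqrt ‖z‖) (𝓝 0) (𝓝 (Real.sqrt ‖(0:ℂ)‖)) :=
      (Real.continuous_sqrt.comp continuous_norm).tendsto 0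
    simpa using this
  · apply ContinuousAt.div continuousAt_id (continuous_sq1.continuousAt)
    simpa using hz

theorem exists_factor (F : C₀(Ω, ℂ)) :
    ∃ G K : C₀(Ω, ℂ), F = G * K ∧ ∀ y, F y = 0 → G y = 0 ∧ K y = 0 := by
  refine ⟨lcomp _ continuous_sq1 (by simp) F, lcomp _ continuous_sq2 (by simp) F, ?_, ?_⟩
  · ext x
    rw [ZeroAtInftyContinuousMap.mul_apply, lcomp_apply, lcomp_apply]
    by_cases hx : F x = 0
    · simp [hx]
    · have : ((Real.sqrt ‖F x‖ : ℝ) : ℂ) ≠ 0 := by simpa using hx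
      field_simp
  · intro y hy
    rw [lcomp_apply, lcomp_apply, hy]
    simp

theorem exists_peak [T2Space Ω] [LocallyCompactSpace Ω] (x : Ω) (S : Set Ω) (hS : S.Finite)
    (hx : x ∉ S) : ∃ e : C₀(Ω, ℂ), e x = 1 ∧ ∀ y ∈ S, e y = 0 := by
  obtain ⟨f, hf1, hf0, hfc, -⟩ := exists_continuous_one_zero_of_isCompact
    (isCompact_singleton (x := x)) hS.isClosed (Set.disjoint_singleton_left.2 hx)
  let g : C(Ω, ℂ) := ⟨fun y => ((f y : ℝ) : ℂ), by fun_prop⟩
  have hg : HasCompactSupport g := hfc.comp_left (g := fun r : ℝ => (r : ℂ)) (by simp)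
  refine ⟨⟨g, ?_⟩, ?_, ?_⟩
  · exact hg.is_zero_at_infty
  · change ((f x : ℝ) : ℂ) = 1
    rw [hf1 rfl]; simp
  · intro y hy
    change ((f y : ℝ) : ℂ) = 0
    rw [hf0 hy]; simp

end MP_7ad892_an
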