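import Pool.Agent.Lib.MP_7ad892_an.Defs

/-!
# MP_7ad892_an : local derivations of matrix representations are derivations
-/

open Filter

namespace MP_7ad892_an

section

variable {A : Type*} [NonUnitalNormedRing A] [NormedSpace ℂ A]
  [IsScalarTower ℂ A A] [SMulCommClass ℂ A A]
  {n : Type*} [Fintype n] [DecidableEq n]

/-- the corner computation -/
theorem corner_identity {R : Type*} [Ring R] {P Q a b c f : R}
    (h1 : (1 - P) * a * (1 - Q) = 0) (h2 : (1 - P) * b * Q = 0) (h3 : P * c * (1 - Q) = 0)
    (h4 : P * f * Q = 0) (h5 : a + b + c + f = 0) : a = (a + b) * Q + P * (a + c) := by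
  have e1 : a = a * Q + P * a - P * a * Q := by
    have : (1 - P) * a * (1 - Q) = a - (a * Q + P * a - P * a * Q) := by noncomm_ring
    rw [this, sub_eq_zero] at h1
    exact h1
  have e2 : b * Q = P * b * Q := by
    have : (1 - P) * b * Q = b * Q - P * b * Q := by noncomm_ring
    rw [this, sub_eq_zero] at h2
    exact h2
  have e3 : P * c = P * c * Q := by
    have : P * c * (1 - Q) = P * c - P * c * Q := by noncomm_ring
    rw [this, sub_eq_zero] at h3
    exact h3
  have e4 : P * a * Q + P * b * Q + P * c * Q = 0 := by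
    have : P * (a + b + c + f) * Q = P * a * Q + P * b * Q + P * c * Q + P * f * Q := by
      noncomm_ring
    rw [h5, h4] at this
    simpa using this.symm
  have e5 : (a + b) * Q + P * (a + c) = a * Q + P * a + (b * Q + P * c) := by noncomm_ring
  rw [e5, e2, e3]
  have e6 : P * b * Q + P * c * Q = - (P * a * Q) := by
    rw [eq_neg_iff_add_eq_zero, ← e4]; abel
  rw [e6]
  conv_lhs => rw [e1]
  abel

theorem local_leibniz (ρ : A →ₗ[ℂ] Matrix n n ℂ) (hρ : ∀ a b, ρ (a * b) = ρ a * ρ b)
    (p : n → A) (hp : ∀ i, ρ (p i) = Matrix.single i i 1) (d : A →ₗ[ℂ] Matrix n n ℂ)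
    (hd : ∀ a, ∃ M, d a = ρ a * M - M * ρ a) (a b : A) :
    d (a * b) = d a * ρ b + ρ a * d b := by
  -- `d` depends only on `ρ`
  have hker : ∀ a, ρ a = 0 → d a = 0 := by
    intro a ha
    obtain ⟨M, hM⟩ := hd a
    rw [hM, ha]; simp
  have hcongr : ∀ a b, ρ a = ρ b → d a = d b := by
    intro a b h
    rw [← sub_eq_zero, ← map_sub]
    exact hker _ (by rw [map_sub, h, sub_self])
  -- a unit
  set e : A := ∑ i, p i with he
  have hρe : ρ e = 1 := by
    rw [he, map_sum, Finset.sum_congr rfl fun i _ => hp i]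
    ext i j
    rw [Matrix.sum_apply, Matrix.one_apply]
    simp only [Matrix.single_apply]
    by_cases h : i = j
    · subst h
      simp
    · rw [if_neg h]
      apply Finset.sum_eq_zero
      intro k _
      rw [if_neg]
      rintro ⟨rfl, rfl⟩
      exact h rfl
  have hde : d e = 0 := by
    obtain ⟨M, hM⟩ := hd e
    rw [hM, hρe]; simp
  -- corners
  have hcorner : ∀ p q, ρ p * ρ p = ρ p → ρ q * ρ q = ρ q →
      (1 - ρ p) * d (p * q) * (1 - ρ q) = 0 := by
    intro p q hp hq
    obtain ⟨M, hM⟩ := hd (p * q)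
    rw [hM, hρ]
    have : (1 - ρ p) * (ρ p * ρ q * M - M * (ρ p * ρ q)) * (1 - ρ q) =
        (ρ p - ρ p * ρ p) * ρ q * M * (1 - ρ q) - (1 - ρ p) * M * ρ p * (ρ q - ρ q * ρ q) := by
      noncomm_ring
    rw [this, hp, hq]; simp
  have hidem : ∀ p q, ρ p * ρ p = ρ p → ρ q * ρ q = ρ q →
      d (p * q) = d p * ρ q + ρ p * d q := by
    intro p q hp hq
    have hp' : ρ (e - p) = 1 - ρ p := by rw [map_sub, hρe]
    have hq' : ρ (e - q) = 1 - ρ q := by rw [map_sub, hρe]
    have hpi : ρ (e - p) * ρ (e - p) = ρ (e - p) := by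
      rw [hp']
      have : (1 - ρ p) * (1 - ρ p) = 1 - ρ p - (ρ p - ρ p * ρ p) := by noncomm_ring
      rw [this, hp]; simp
    have hqi : ρ (e - q) * ρ (e - q) = ρ (e - q) := by
      rw [hq']
      have : (1 - ρ q) * (1 - ρ q) = 1 - ρ q - (ρ q - ρ q * ρ q) := by noncomm_ring
      rw [this, hq]; simp
    have c1 := hcorner p q hp hq
    have c2 := hcorner p (e - q) hp hqi
    have c3 := hcorner (e - p) q hpi hq
    have c4 := hcorner (e - p) (e - q) hpi hqi
    rw [hq', sub_sub_cancel] at c2
    rw [hp', sub_sub_cancel] at c3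
    rw [hp', hq', sub_sub_cancel, sub_sub_cancel] at c4
    have s1 : d p = d (p * q) + d (p * (e - q)) := by
      rw [← map_add, ← mul_add, add_sub_cancel]
      apply hcongr
      rw [hρ, hρe, mul_one]
    have s2 : d q = d (p * q) + d ((e - p) * q) := by
      rw [← map_add, ← add_mul, add_sub_cancel]
      apply hcongr
      rw [hρ, hρe, one_mul]
    have s3 : d (p * q) + d (p * (e - q)) + d ((e - p) * q) + d ((e - p) * (e - q)) = 0 := by
      rw [← map_add, ← map_add, ← map_add]
      have : p * q + p * (e - q) + (e - p) * q + (e - p) * (e - q) = e * e := by noncomm_ring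
      rw [this]
      apply (hcongr _ e _).trans hde
      rw [hρ, hρe, mul_one]
    have key := corner_identity c1 c2 c3 c4 s3
    rw [← s1, ← s2] at key
    exact key
  -- spanning
  have hspan : ∀ a, a ∈ Submodule.span ℂ {a : A | ρ a * ρ a = ρ a} := by
    intro a
    set Sp := Submodule.span ℂ {a : A | ρ a * ρ a = ρ a}
    have hk : ∀ a, ρ a = 0 → a ∈ Sp := fun a ha => Submodule.subset_span (by
      change ρ a * ρ a = ρ a
      rw [ha, mul_zero])
    have hpi : ∀ i, p i ∈ Sp := fun i => Submodule.subset_span (by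
      change ρ (p i) * ρ (p i) = ρ (p i)
      rw [hp]; simp)
    have hcomp : ∀ i j, p i * a * p j ∈ Sp := by
      intro i j
      have hρij : ρ (p i * a * p j) = Matrix.single i j (ρ a i j) := by
        rw [hρ, hρ, hp, hp, Matrix.single_mul_mul_single]
        simp
      by_cases hij : i = j
      · subst hij
        have h1 : p i * a * p i = ρ a i i • p i + (p i * a * p i - ρ a i i • p i) := by abel
        rw [h1]
        refine add_mem (Submodule.smul_mem _ _ (hpi i)) (hk _ ?_)
        rw [map_sub, hρij, map_smul, hp, Matrix.smul_single]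
        simp
      · by_cases ha0 : ρ a i j = 0
        · apply hk
          rw [hρij, ha0]; simp
        · have h1 : p i * a * p j =
              ρ a i j • ((p i + (ρ a i j)⁻¹ • (p i * a * p j)) - p i) := by
            rw [add_sub_cancel_left, smul_smul, mul_inv_cancel₀ ha0, one_smul]
          rw [h1]
          refine Submodule.smul_mem _ _ (sub_mem (Submodule.subset_span ?_) (hpi i))
          change ρ (p i + (ρ a i j)⁻¹ • (p i * a * p j)) * ρ (p i + (ρ a i j)⁻¹ • (p i * a * p j))
            = ρ (p i + (ρ a i j)⁻¹ • (p i * a * p j))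
          rw [map_add, map_smul, hρij, hp, Matrix.smul_single, smul_eq_mul, inv_mul_cancel₀ ha0,
            add_mul, mul_add, mul_add]
          rw [Matrix.single_mul_single_same, Matrix.single_mul_single_same,
            Matrix.single_mul_single_of_ne _ _ _ _ (Ne.symm hij),
            Matrix.single_mul_single_of_ne _ _ _ _ (Ne.symm hij)]
          simp
    have h2 : a = (∑ i, ∑ j, p i * a * p j) + (a - ∑ i, ∑ j, p i * a * p j) := by abel
    rw [h2]
    refine add_mem (sum_mem fun i _ => sum_mem fun j _ => hcomp i j) (hk _ ?_)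
    have h3 : ∑ i, ∑ j, p i * a * p j = e * a * e := by
      rw [he, Finset.sum_mul, Finset.sum_mul]
      refine Finset.sum_congr rfl fun i _ => ?_
      rw [Finset.mul_sum]
    rw [h3, map_sub, hρ, hρ, hρe]
    simp
  have ha := hspan a
  have hb := hspan b
  induction ha using Submodule.span_induction with
  | mem p hp =>
    induction hb using Submodule.span_induction with
    | mem q hq => exact hidem p q hp hq
    | zero => simp
    | add x y _ _ hx hy => rw [mul_add, map_add, hx, hy, map_add, map_add]; noncomm_ring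
    | smul c x _ hx =>
      rw [mul_smul_comm, map_smul, hx, map_smul, map_smul, mul_smul_comm, mul_smul_comm, smul_add]
  | zero => simp
  | add x y _ _ hx hy => rw [add_mul, map_add, hx, hy, map_add, map_add]; noncomm_ring
  | smul c x _ hx =>
    rw [smul_mul_assoc, map_smul, hx, map_smul, map_smul, smul_mul_assoc, smul_mul_assoc, smul_add]

/-- limits of inner values are inner values -/
theorem exists_comm_of_tendsto (R : Matrix n n ℂ) {Y : ℕ → Matrix n n ℂ} {Y0 : Matrix n n ℂ}
    (hY : ∀ k, ∃ M, Y k = R * M - M * R) (hlim : Tendsto Y atTop (nhds Y0)) :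
    ∃ M, Y0 = R * M - M * R := by
  let ad : Matrix n n ℂ →ₗ[ℂ] Matrix n n ℂ :=
    LinearMap.mulLeft ℂ R - LinearMap.mulRight ℂ R
  have had : ∀ M, ad M = R * M - M * R := fun M => rfl
  have hcl : IsClosed ((LinearMap.range ad : Submodule ℂ (Matrix n n ℂ)) : Set (Matrix n n ℂ)) :=
    Submodule.closed_of_finiteDimensional _
  have hmem : Y0 ∈ (LinearMap.range ad : Submodule ℂ (Matrix n n ℂ)) := by
    apply hcl.mem_of_tendsto hlim
    filter_upwards with k
    obtain ⟨M, hM⟩ := hY k
    exact ⟨M, by rw [had, hM]⟩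
  obtain ⟨M, hM⟩ := hmem
  exact ⟨M, by rw [← hM, had]⟩

end

end MP_7ad892_an
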