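import Pool.Agent.Lib.MP_7ad892_an.Defs

/-!
# MP_7ad892_an : the `n!` argument
-/

open Filter Finset

namespace MP_7ad892_an

section

variable {A : Type*} [NonUnitalNormedRing A] [NormedSpace ℂ A]
  {n : Type*} [Fintype n] [DecidableEq n]

/-- general Leibniz rule -/
theorem IsDer.iterate_mul {D : A →L[ℂ] A} (hD : IsDer D) (m : ℕ) (a b : A) :
    D^[m] (a * b) = ∑ ij ∈ antidiagonal m, m.choose ij.1 • (D^[ij.1] a * D^[ij.2] b) := by
  induction m with
  | zero => simp
  | succ m ih =>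
    rw [sum_antidiagonal_choose_succ_nsmul (M := A) (fun i j => D^[i] a * D^[j] b) m]
    simp only [Function.iterate_succ_apply', ih, map_sum, map_nsmul, hD _ _, smul_add,
      sum_add_distrib]
    rw [add_comm]
    congr 1
    refine sum_congr rfl fun ⟨i, j⟩ hij ↦ ?_
    rw [m.choose_symm_of_eq_add (mem_antidiagonal.1 hij).symm]

/-- `pw c n = c^(n+1)` -/
def pw (c : A) : ℕ → A
  | 0 => c
  | n + 1 => c * pw c n

omit [NormedSpace ℂ A] in
theorem pw_norm (c : A) (n : ℕ) : ‖pw c n‖ ≤ ‖c‖ ^ (n + 1) := by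
  induction n with
  | zero => simp [pw]
  | succ n ih =>
    calc ‖pw c (n + 1)‖ ≤ ‖c‖ * ‖pw c n‖ := norm_mul_le _ _
      _ ≤ ‖c‖ * ‖c‖ ^ (n + 1) := by gcongr
      _ = ‖c‖ ^ (n + 1 + 1) := by ring

theorem iterate_norm (D : A →L[ℂ] A) (m : ℕ) (a : A) : ‖D^[m] a‖ ≤ ‖D‖ ^ m * ‖a‖ := by
  induction m with
  | zero => simp
  | succ m ih =>
    rw [Function.iterate_succ_apply']
    calc ‖D (D^[m] a)‖ ≤ ‖D‖ * ‖D^[m] a‖ := D.le_opNorm _
      _ ≤ ‖D‖ * (‖D‖ ^ m * ‖a‖) := by gcongr
      _ = ‖D‖ ^ (m + 1) * ‖a‖ := by ring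

variable {ρ : A →L[ℂ] Matrix n n ℂ}

theorem rho_iterate (hρ : ∀ a b, ρ (a * b) = ρ a * ρ b) {D : A →L[ℂ] A} (hD : IsDer D) {c : A}
    (hc : ρ c = 0) (k : ℕ) :
    (∀ m ≤ k, ρ (D^[m] (pw c k)) = 0) ∧
      ρ (D^[k + 1] (pw c k)) = ((k + 1).factorial : ℂ) • ρ (D c) ^ (k + 1) := by
  induction k with
  | zero =>
    constructor
    · intro m hm
      rw [Nat.le_zero.1 hm]
      exact hc
    · simp [pw]
  | succ k ih =>
    constructor
    · intro m hm
      change ρ (D^[m] (c * pw c k)) = 0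
      rw [hD.iterate_mul, map_sum]
      apply Finset.sum_eq_zero
      rintro ⟨i, j⟩ hij
      have hij' := mem_antidiagonal.1 hij
      simp only at hij'
      rw [map_nsmul, hρ]
      rcases Nat.eq_zero_or_pos i with rfl | hi
      · simp [hc]
      · have := ih.1 j (by omega)
        simp [this]
    · change ρ (D^[k + 1 + 1] (c * pw c k)) = _
      rw [hD.iterate_mul, map_sum, Finset.sum_eq_single (1, k + 1)]
      · rw [map_nsmul, hρ, ih.2]
        simp only [Function.iterate_one, Nat.choose_one_right]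
        rw [mul_smul_comm, ← pow_succ', ← Nat.cast_smul_eq_nsmul ℂ, smul_smul,
          Nat.factorial_succ (k + 1)]
        push_cast
        rfl
      · rintro ⟨i, j⟩ hij hne
        have hij' := mem_antidiagonal.1 hij
        simp only at hij'
        rw [map_nsmul, hρ]
        rcases Nat.eq_zero_or_pos i with rfl | hi
        · simp [hc]
        · have : j ≤ k := by
            by_contra h
            apply hne
            ext
            · simp only; omega
            · simp only; omega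
          simp [ih.1 j this]
      · intro h
        exact absurd (HasAntidiagonal.mem_antidiagonal.2 (by simp only; omega)) h

/-- If `ρ c = 0` then `ρ (D c)` cannot be a nonzero multiple of a diagonal matrix unit. -/
theorem eq_zero_of_rho_der (hρ : ∀ a b, ρ (a * b) = ρ a * ρ b) {D : A →L[ℂ] A} (hD : IsDer D)
    {c : A} (hc : ρ c = 0) (j : n) (y : ℂ) (hy : ρ (D c) = Matrix.single j j y) : y = 0 := by
  by_contra hy0
  have hy' : 0 < ‖y‖ := norm_pos_iff.2 hy0
  -- entry functional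
  let φ : A →L[ℂ] ℂ :=
    { toFun := fun a => ρ a j j
      map_add' := fun a b => by simp
      map_smul' := fun c a => by simp
      cont := (ρ.continuous.matrix_elem j j) }
  have hpow : ∀ k : ℕ, (Matrix.single j j y : Matrix n n ℂ) ^ (k + 1) =
      Matrix.single j j (y ^ (k + 1)) := by
    intro k
    induction k with
    | zero => simp
    | succ k ih => rw [pow_succ, ih, Matrix.single_mul_single_same, ← pow_succ]
  have key : ∀ k : ℕ, ((k + 1).factorial : ℝ) * ‖y‖ ^ (k + 1) ≤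
      ‖φ‖ * (‖D‖ * ‖c‖) ^ (k + 1) := by
    intro k
    have h1 := (rho_iterate hρ hD hc k).2
    have h2 : φ (D^[k + 1] (pw c k)) = ((k + 1).factorial : ℂ) * y ^ (k + 1) := by
      change ρ (D^[k + 1] (pw c k)) j j = _
      rw [h1, hy, hpow]
      simp
    have h3 : ‖φ (D^[k + 1] (pw c k))‖ = ((k + 1).factorial : ℝ) * ‖y‖ ^ (k + 1) := by
      rw [h2, norm_mul, norm_pow, Complex.norm_natCast]
    rw [← h3]
    calc ‖φ (D^[k + 1] (pw c k))‖ ≤ ‖φ‖ * ‖D^[k + 1] (pw c k)‖ := φ.le_opNorm _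
      _ ≤ ‖φ‖ * (‖D‖ ^ (k + 1) * ‖pw c k‖) := by gcongr; exact iterate_norm _ _ _
      _ ≤ ‖φ‖ * (‖D‖ ^ (k + 1) * ‖c‖ ^ (k + 1)) := by gcongr; exact pw_norm _ _
      _ = _ := by rw [mul_pow]
  have hlim := (FloorSemiring.tendsto_pow_div_factorial_atTop (‖D‖ * ‖c‖ / ‖y‖)).const_mul ‖φ‖
  rw [mul_zero] at hlim
  have hlim' := hlim.comp (tendsto_add_atTop_nat 1)
  have hle : (1 : ℝ) ≤ 0 := by
    apply ge_of_tendsto hlim'
    filter_upwards with k
    have := key k
    have hf : (0 : ℝ) < ((k + 1).factorial : ℝ) := by exact_mod_cast Nat.factorial_pos _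
    simp only [Function.comp_apply]
    rw [div_pow, div_div, ← mul_div_assoc, le_div_iff₀ (by positivity), one_mul]
    linarith
  exact absurd hle (by norm_num)

end

end MP_7ad892_an
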