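import Pool.Agent.Lib.MP_7ad892_an.FinRep
import Pool.Agent.Lib.MP_7ad892_an.Factor
import Pool.Agent.Lib.MP_7ad892_an.Sinclair
import Pool.Agent.Lib.MP_7ad892_an.Local

/-!
# MP_7ad892_an : derivations become inner in the finite-dimensional representations
-/

open scoped ZeroAtInfty Topology Classical
open Filter

set_option linter.unusedSectionVars false

namespace MP_7ad892_an

section Point

variable {Ω : Type*} [TopologicalSpace Ω] [T2Space Ω] [LocallyCompactSpace Ω]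

/-- point derivations of `C₀(Ω)` vanish -/
theorem point_derivation (y : Ω) (d : C₀(Ω, ℂ) → ℂ) (hadd : ∀ f g, d (f + g) = d f + d g)
    (hsmul : ∀ (c : ℂ) f, d (c • f) = c * d f)
    (h : ∀ f g, d (f * g) = d f * g y + f y * d g) (f : C₀(Ω, ℂ)) : d f = 0 := by
  have h0 : ∀ f : C₀(Ω, ℂ), f y = 0 → d f = 0 := by
    intro f hf
    obtain ⟨G, K, hGK, hz⟩ := exists_factor f
    obtain ⟨hG, hK⟩ := hz y hf
    rw [hGK, h, hG, hK]; simp
  obtain ⟨e, he, -⟩ := exists_peak y ∅ Set.finite_empty (by simp)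
  have hlin : ∀ f : C₀(Ω, ℂ), d f = f y * d e := by
    intro f
    have h1 := h0 (f + (-f y) • e) (by
      rw [ZeroAtInftyContinuousMap.add_apply, ZeroAtInftyContinuousMap.smul_apply, he]
      simp)
    rw [hadd, hsmul] at h1
    linear_combination h1
  have h2 := h e e
  rw [hlin (e * e), ZeroAtInftyContinuousMap.mul_apply, he] at h2
  have h3 : d e = 0 := by linear_combination -h2
  rw [hlin, h3, mul_zero]

end Point

section

variable {Ω : Type*} [TopologicalSpace Ω] [T2Space Ω] [LocallyCompactSpace Ω]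
  {σ : Ω → Ω} {hσ : IsProperMap σ} {A : Type*} [NonUnitalNormedRing A] [NormedSpace ℂ A]
  [IsScalarTower ℂ A A] [SMulCommClass ℂ A A]
  {s : CovSys hσ A} {x : Ω} {N : ℕ} {w : ℂ}

/-- derivations relative to `ρ` -/
def IsRD (ρ : A →L[ℂ] Matrix (Fin N) (Fin N) ℂ) (Δ : A →L[ℂ] Matrix (Fin N) (Fin N) ℂ) : Prop :=
  ∀ a b, Δ (a * b) = Δ a * ρ b + ρ a * Δ b

/-- `a ↦ [ρ a, M]` -/
noncomputable def ad (ρ : A →L[ℂ] Matrix (Fin N) (Fin N) ℂ) (M : Matrix (Fin N) (Fin N) ℂ) :
    A →L[ℂ] Matrix (Fin N) (Fin N) ℂ where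
  toFun a := ρ a * M - M * ρ a
  map_add' a b := by rw [map_add]; noncomm_ring
  map_smul' c a := by
    rw [map_smul, RingHom.id_apply, smul_mul_assoc, mul_smul_comm, smul_sub]
  cont := (ρ.continuous.mul continuous_const).sub (continuous_const.mul ρ.continuous)

theorem ad_apply (ρ : A →L[ℂ] Matrix (Fin N) (Fin N) ℂ) (M : Matrix (Fin N) (Fin N) ℂ) (a : A) :
    ad ρ M a = ρ a * M - M * ρ a := rfl

theorem isRD_ad {ρ : A →L[ℂ] Matrix (Fin N) (Fin N) ℂ} (hρ : ∀ a b, ρ (a * b) = ρ a * ρ b)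
    (M : Matrix (Fin N) (Fin N) ℂ) : IsRD ρ (ad ρ M) := by
  intro a b
  rw [ad_apply, ad_apply, ad_apply, hρ]
  noncomm_ring

theorem IsRD.sub {ρ Δ Δ' : A →L[ℂ] Matrix (Fin N) (Fin N) ℂ} (h : IsRD ρ Δ) (h' : IsRD ρ Δ') :
    IsRD ρ (Δ - Δ') := by
  intro a b
  rw [sub_apply, sub_apply, sub_apply, h, h']
  noncomm_ring

theorem isRD_comp {ρ : A →L[ℂ] Matrix (Fin N) (Fin N) ℂ} (hρ : ∀ a b, ρ (a * b) = ρ a * ρ b)
    {D : A →L[ℂ] A} (hD : IsDer D) : IsRD ρ (ρ.comp D) := by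
  intro a b
  rw [ContinuousLinearMap.comp_apply, hD, map_add, hρ, hρ]
  rfl

/-- step (i) -/
theorem FinRep.step1 (r : FinRep s x N w) {Δ : A →L[ℂ] Matrix (Fin N) (Fin N) ℂ}
    (hΔ : IsRD r.ρ Δ) : ∃ M, ∀ f, Δ (s.π f) = ad r.ρ M (s.π f) := by
  have hY : ∀ f g (a b : Fin N), Δ (s.π (f * g)) a b =
      Δ (s.π f) a b * g (σ^[b] x) + f (σ^[a] x) * Δ (s.π g) a b := by
    intro f g a b
    rw [s.π_mul, hΔ, r.map_π, r.map_π, Matrix.add_apply, Matrix.mul_diagonal,
      Matrix.diagonal_mul]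
  have hdiag : ∀ f (a : Fin N), Δ (s.π f) a a = 0 := by
    intro f a
    exact point_derivation (σ^[a] x) (fun f => Δ (s.π f) a a) (fun f g => by simp)
      (fun c f => by simp) (fun f g => hY f g a a) f
  have hpk : ∀ a b : Fin N, a ≠ b → ∃ g : C₀(Ω, ℂ), g (σ^[b] x) = 1 ∧ g (σ^[a] x) = 0 := by
    intro a b hab
    obtain ⟨g, hg1, hg0⟩ := exists_peak (σ^[b] x) {σ^[a] x} (Set.finite_singleton _) (by
      rw [Set.mem_singleton_iff]
      intro h
      exact hab (r.inj h.symm))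
    exact ⟨g, hg1, hg0 _ rfl⟩
  choose! g hg using hpk
  refine ⟨Matrix.of fun a b => if a = b then 0 else -Δ (s.π (g a b)) a b, fun f => ?_⟩
  ext a b
  rw [ad_apply, r.map_π, Matrix.sub_apply, Matrix.diagonal_mul, Matrix.mul_diagonal,
    Matrix.of_apply]
  by_cases hab : a = b
  · subst hab
    rw [if_pos rfl, hdiag]; simp
  · rw [if_neg hab]
    have h1 := hY f (g a b) a b
    have h2 := hY (g a b) f a b
    rw [mul_comm f, h2, (hg a b hab).1, (hg a b hab).2] at h1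
    linear_combination -h1

/-- step (ii) -/
theorem FinRep.step2 (r : FinRep s x N w) {Δ : A →L[ℂ] Matrix (Fin N) (Fin N) ℂ}
    (hΔ : IsRD r.ρ Δ) (h0 : ∀ f, Δ (s.π f) = 0) :
    ∃ y : Matrix (Fin N) (Fin N) ℂ, (∀ F a b, Δ (s.t F) a b = y a b * F (σ^[b] x)) ∧
      ∀ a b : Fin N, σ^[a] x ≠ σ (σ^[b] x) → y a b = 0 := by
  have hR : ∀ F g (a b : Fin N), Δ (s.t (F * g)) a b = Δ (s.t F) a b * g (σ^[b] x) := by
    intro F g a b
    rw [s.t_right, hΔ, h0, mul_zero, add_zero, r.map_π, Matrix.mul_diagonal]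
  have hL : ∀ f F (a b : Fin N), Δ (s.t (pull hσ f * F)) a b = f (σ^[a] x) * Δ (s.t F) a b := by
    intro f F a b
    rw [s.t_left, hΔ, h0, zero_mul, zero_add, r.map_π, Matrix.diagonal_mul]
  have hpk : ∀ b : Fin N, ∃ e : C₀(Ω, ℂ), e (σ^[b] x) = 1 := by
    intro b
    obtain ⟨e, he, -⟩ := exists_peak (σ^[b] x) ∅ Set.finite_empty (by simp)
    exact ⟨e, he⟩
  choose e he using hpk
  have hform : ∀ F (a b : Fin N), Δ (s.t F) a b = Δ (s.t (e b)) a b * F (σ^[b] x) := by
    intro F a b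
    have h1 := hR F (e b) a b
    have h2 := hR (e b) F a b
    rw [mul_comm F, h2, he, mul_one] at h1
    exact h1.symm
  refine ⟨Matrix.of fun a b => Δ (s.t (e b)) a b, fun F a b => ?_, fun a b hab => ?_⟩
  · rw [Matrix.of_apply]; exact hform F a b
  · rw [Matrix.of_apply]
    obtain ⟨f, hf1, hf0⟩ := exists_peak (σ^[a] x) {σ (σ^[b] x)} (Set.finite_singleton _) (by
      rw [Set.mem_singleton_iff]; exact hab)
    have h1 := hL f (e b) a b
    rw [hform, ZeroAtInftyContinuousMap.mul_apply, pull_apply, hf0 _ rfl, hf1] at h1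
    simpa using h1.symm

/-- telescoping weights -/
noncomputable def tele (w : ℂ) (y : Matrix (Fin N) (Fin N) ℂ) : ℕ → ℂ
  | 0 => 0
  | k + 1 => tele w y k - (if h : k + 1 < N then y ⟨k + 1, h⟩ ⟨k, by omega⟩ / w else 0)

theorem FinRep.next_eq (r : FinRep s x N w) {a b : Fin N} (hb : (b : ℕ) + 1 < N)
    (h : σ^[a] x = σ (σ^[b] x)) : a = ⟨(b : ℕ) + 1, hb⟩ := by
  apply r.inj
  simp only
  rw [h, Function.iterate_succ_apply']

/-- step (iii) -/
theorem FinRep.step3 (r : FinRep s x N w) {Δ : A →L[ℂ] Matrix (Fin N) (Fin N) ℂ}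
    (hΔ : IsRD r.ρ Δ) (h0 : ∀ f, Δ (s.π f) = 0) :
    ∃ M, (∀ f, ad r.ρ M (s.π f) = 0) ∧ ∃ y : Matrix (Fin N) (Fin N) ℂ,
      (∀ F a b, (Δ - ad r.ρ M) (s.t F) a b = y a b * F (σ^[b] x)) ∧
      (∀ a b : Fin N, σ^[a] x ≠ σ (σ^[b] x) → y a b = 0) ∧
      ∀ a b : Fin N, (b : ℕ) + 1 < N → y a b = 0 := by
  obtain ⟨y, hy, hy0⟩ := r.step2 hΔ h0
  set m : Fin N → ℂ := fun i => tele w y i with hm
  refine ⟨Matrix.diagonal m, ?_, ?_⟩
  · intro f
    rw [ad_apply, r.map_π, Matrix.diagonal_mul_diagonal, Matrix.diagonal_mul_diagonal]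
    ext a b
    simp [mul_comm]
  · refine ⟨Matrix.of fun a b => if σ^[a] x = σ (σ^[b] x) then y a b - w * (m b - m a) else 0,
      ?_, ?_, ?_⟩
    · intro F a b
      rw [sub_apply, Matrix.sub_apply, hy, ad_apply, Matrix.sub_apply, Matrix.mul_diagonal,
        Matrix.diagonal_mul, r.map_t, Matrix.of_apply, Matrix.of_apply]
      split_ifs with h
      · ring
      · rw [hy0 a b h]; ring
    · intro a b h
      rw [Matrix.of_apply, if_neg h]
    · intro a b hb
      rw [Matrix.of_apply]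
      split_ifs with h
      · have ha := r.next_eq hb h
        have hma : m a = m b - y ⟨(b : ℕ) + 1, hb⟩ b / w := by
          rw [hm]
          simp only
          rw [ha]
          simp only
          rw [tele, dif_pos hb]
        rw [hma, ha]
        have := r.w_ne
        field_simp
        ring
      · rfl

/-- step (iv): the wrap-around edge -/
theorem FinRep.step4 (r : FinRep s x N w) {D : A →L[ℂ] A} (hD : IsDer D)
    {M : Matrix (Fin N) (Fin N) ℂ}
    (h0 : ∀ f, (r.ρ.comp D - ad r.ρ M) (s.π f) = 0)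
    {y : Matrix (Fin N) (Fin N) ℂ}
    (hy : ∀ F a b, (r.ρ.comp D - ad r.ρ M) (s.t F) a b = y a b * F (σ^[b] x))
    (hy0 : ∀ a b : Fin N, σ^[a] x ≠ σ (σ^[b] x) → y a b = 0)
    (hy1 : ∀ a b : Fin N, (b : ℕ) + 1 < N → y a b = 0) : y = 0 := by
  set Δ := r.ρ.comp D - ad r.ρ M with hΔdef
  have hΔ : IsRD r.ρ Δ := (isRD_comp r.map_mul hD).sub (isRD_ad r.map_mul M)
  ext j l
  rw [Matrix.zero_apply]
  by_cases hl : (l : ℕ) + 1 < N
  · exact hy1 j l hl
  by_cases hjl : σ^[j] x = σ (σ^[l] x)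
  swap
  · exact hy0 j l hjl
  have hlN : (l : ℕ) + 1 = N := by have := l.2; omega
  -- peak functions
  have hpk : ∀ i : Fin N, ∃ e : C₀(Ω, ℂ), ∀ k : Fin N, e (σ^[k] x) = if k = i then 1 else 0 := by
    intro i
    obtain ⟨e, he1, he0⟩ := exists_peak (σ^[i] x)
      ((fun k : Fin N => σ^[k] x) '' {k | k ≠ i}) (Set.toFinite _) (by
        rintro ⟨k, hk, hki⟩
        exact hk (r.inj hki))
    refine ⟨e, fun k => ?_⟩
    split_ifs with h
    · rw [h, he1]
    · exact he0 _ ⟨k, h, rfl⟩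
  choose e he using hpk
  have hρp : ∀ i, r.ρ (s.π (e i)) = Matrix.single i i 1 := by
    intro i
    rw [r.map_π]
    ext a b
    rw [Matrix.diagonal_apply, Matrix.single_apply, he]
    by_cases hab : a = b
    · subst hab
      by_cases hai : a = i
      · subst hai; simp
      · rw [if_pos rfl, if_neg hai, if_neg]
        exact fun h => hai h.1.symm
    · rw [if_neg hab, if_neg]
      rintro ⟨h1, h2⟩
      exact hab (h1.symm.trans h2)
  -- `t (e i)` for an inner edge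
  have hρt : ∀ (i : Fin N) (hi : (i : ℕ) + 1 < N),
      r.ρ (s.t (e i)) = Matrix.single ⟨(i : ℕ) + 1, hi⟩ i w := by
    intro i hi
    rw [r.map_t]
    ext a b
    rw [Matrix.of_apply, Matrix.single_apply, he]
    by_cases hbi : b = i
    · subst hbi
      by_cases h : σ^[a] x = σ (σ^[b] x)
      · have := r.next_eq hi h
        rw [if_pos h, if_pos rfl, if_pos ⟨this.symm, rfl⟩, mul_one]
      · rw [if_neg h, if_neg]
        rintro ⟨h1, -⟩
        apply h
        rw [← h1]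
        simp only
        rw [Function.iterate_succ_apply']
    · have h2 : ¬ ((⟨(i : ℕ) + 1, hi⟩ : Fin N) = a ∧ i = b) := fun h => hbi h.2.symm
      rw [if_neg hbi, if_neg h2]
      simp
  have hΔt : ∀ (i : Fin N) (_ : (i : ℕ) + 1 < N), Δ (s.t (e i)) = 0 := by
    intro i hi
    ext a b
    rw [hy, he]
    by_cases hbi : b = i
    · subst hbi
      rw [hy1 a b hi]; simp
    · rw [if_neg hbi]; simp
  -- the last edge
  have hρtl : r.ρ (s.t (e l)) = Matrix.single j l w := by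
    rw [r.map_t]
    ext a b
    rw [Matrix.of_apply, Matrix.single_apply, he]
    by_cases hbl : b = l
    · subst hbl
      by_cases h : σ^[a] x = σ (σ^[b] x)
      · have : a = j := r.inj (h.trans hjl.symm)
        rw [if_pos h, if_pos rfl, if_pos ⟨this.symm, rfl⟩, mul_one]
      · rw [if_neg h, if_neg]
        rintro ⟨h1, -⟩
        apply h
        rw [← h1, hjl]
    · have h2 : ¬ (j = a ∧ l = b) := fun h => hbl h.2.symm
      rw [if_neg hbl, if_neg h2]
      simp
  have hΔtl : Δ (s.t (e l)) = Matrix.single j l (y j l) := by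
    ext a b
    rw [hy, he, Matrix.single_apply]
    by_cases hbl : b = l
    · subst hbl
      by_cases haj : a = j
      · subst haj; simp
      · have h2 : ¬ (j = a ∧ b = b) := fun h => haj h.1.symm
        rw [hy0 a b, if_neg h2]
        · simp
        · intro h
          exact haj (r.inj (h.trans hjl.symm))
    · have h2 : ¬ (j = a ∧ l = b) := fun h => hbl h.2.symm
      rw [if_neg hbl, if_neg h2]
      simp
  -- the path from `j` to `l`
  have hpath : ∀ k (hk : k < N), (j : ℕ) ≤ k →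
      ∃ b : A, r.ρ b = Matrix.single ⟨k, hk⟩ j 1 ∧ Δ b = 0 := by
    intro k
    induction k with
    | zero =>
      intro hk hj
      have : j = ⟨0, hk⟩ := Fin.ext (by simpa using hj)
      refine ⟨s.π (e j), ?_, h0 _⟩
      rw [hρp, ← this]
    | succ k ih =>
      intro hk hj
      rcases Nat.lt_or_ge k j with hkj | hkj
      · have : j = ⟨k + 1, hk⟩ := Fin.ext (by simp only; omega)
        refine ⟨s.π (e j), ?_, h0 _⟩
        rw [hρp, ← this]
      · obtain ⟨b, hb1, hb2⟩ := ih (by omega) hkj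
        refine ⟨w⁻¹ • (s.t (e ⟨k, by omega⟩) * b), ?_, ?_⟩
        · rw [map_smul, r.map_mul, hρt ⟨k, by omega⟩ hk, hb1, Matrix.single_mul_single_same,
            Matrix.smul_single, smul_eq_mul, mul_one, inv_mul_cancel₀ r.w_ne]
        · rw [map_smul, hΔ, hb2, hΔt ⟨k, by omega⟩ hk]
          simp
  obtain ⟨b, hb1, hb2⟩ := hpath l l.2 (by have := j.2; omega)
  set c : A := s.t (e l) * b - w • s.π (e j) with hc
  have hρc : r.ρ c = 0 := by
    rw [hc, map_sub, r.map_mul, hρtl, hb1, map_smul, hρp, Matrix.single_mul_single_same,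
      Matrix.smul_single, mul_one, smul_eq_mul, mul_one, sub_self]
  have hΔc : Δ c = Matrix.single j j (y j l) := by
    rw [hc, map_sub, hΔ, hb2, map_smul, h0, hΔtl, hb1, Matrix.single_mul_single_same]
    simp
  have hDc : r.ρ (D c) = Matrix.single j j (y j l) := by
    rw [← hΔc, hΔdef, sub_apply, ad_apply, hρc]
    simp
  exact eq_zero_of_rho_der r.map_mul hD hρc j (y j l) hDc

/-- a `ρ`-derivation vanishing on the generators vanishes -/
theorem FinRep.step5 (r : FinRep s x N w) {Δ : A →L[ℂ] Matrix (Fin N) (Fin N) ℂ}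
    (hΔ : IsRD r.ρ Δ) (h0 : ∀ f, Δ (s.π f) = 0) (h1 : ∀ F, Δ (s.t F) = 0) (a : A) : Δ a = 0 := by
  let S : NonUnitalSubalgebra ℂ A :=
    { carrier := {a | Δ a = 0}
      add_mem' := fun {a b} ha hb => by
        change Δ (a + b) = 0
        rw [map_add, ha, hb, add_zero]
      zero_mem' := map_zero _
      mul_mem' := fun {a b} ha hb => by
        change Δ (a * b) = 0
        rw [hΔ, ha, hb]; simp
      smul_mem' := fun c a ha => by
        change Δ (c • a) = 0
        rw [map_smul, ha, smul_zero] }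
  exact s.dense S (isClosed_singleton.preimage Δ.continuous) h0 h1 a

/-- (D) every bounded derivation becomes inner in `M_N(ℂ)`. -/
theorem FinRep.map_der (r : FinRep s x N w) (D : A →L[ℂ] A) (hD : IsDer D) :
    ∃ M : Matrix (Fin N) (Fin N) ℂ, ∀ a, r.ρ (D a) = r.ρ a * M - M * r.ρ a := by
  obtain ⟨M₀, hM₀⟩ := r.step1 (isRD_comp r.map_mul hD)
  have h1 : IsRD r.ρ (r.ρ.comp D - ad r.ρ M₀) :=
    (isRD_comp r.map_mul hD).sub (isRD_ad r.map_mul M₀)
  have h1π : ∀ f, (r.ρ.comp D - ad r.ρ M₀) (s.π f) = 0 := by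
    intro f
    rw [sub_apply, hM₀, sub_self]
  obtain ⟨M₁, hM₁, y, hy, hy0, hy1⟩ := r.step3 h1 h1π
  have hM : ∀ a, (r.ρ.comp D - ad r.ρ M₀ - ad r.ρ M₁) a =
      (r.ρ.comp D - ad r.ρ (M₀ + M₁)) a := by
    intro a
    simp only [sub_apply, ad_apply]
    noncomm_ring
  have h2π : ∀ f, (r.ρ.comp D - ad r.ρ (M₀ + M₁)) (s.π f) = 0 := by
    intro f
    rw [← hM, sub_apply, h1π, hM₁, sub_zero]
  have hyz : y = 0 := by
    refine r.step4 hD h2π (y := y) ?_ hy0 hy1
    intro F a b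
    rw [← hM]
    exact hy F a b
  have h2 : IsRD r.ρ (r.ρ.comp D - ad r.ρ (M₀ + M₁)) :=
    (isRD_comp r.map_mul hD).sub (isRD_ad r.map_mul _)
  refine ⟨M₀ + M₁, fun a => ?_⟩
  have h3 := r.step5 h2 h2π (by
    intro F
    ext a b
    rw [← hM, hy, hyz]
    simp) a
  rw [sub_apply, sub_eq_zero] at h3
  exact h3

/-- (A)+(L) approximately local derivations satisfy the Leibniz rule in `M_N(ℂ)`. -/
theorem FinRep.map_approxLocal (r : FinRep s x N w) (δ : A →L[ℂ] A) (hδ : IsApproxLocalDer δ)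
    (a b : A) : r.ρ (δ (a * b)) = r.ρ (δ a * b + a * δ b) := by
  have hpk : ∀ i : Fin N, ∃ p : A, r.ρ p = Matrix.single i i 1 := by
    intro i
    obtain ⟨e, he1, he0⟩ := exists_peak (σ^[i] x)
      ((fun k : Fin N => σ^[k] x) '' {k | k ≠ i}) (Set.toFinite _) (by
        rintro ⟨k, hk, hki⟩
        exact hk (r.inj hki))
    refine ⟨s.π e, ?_⟩
    rw [r.map_π]
    ext a b
    rw [Matrix.diagonal_apply, Matrix.single_apply]
    by_cases hab : a = b
    · subst hab
      by_cases hai : a = i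
      · subst hai; simp [he1]
      · rw [if_pos rfl, if_neg (fun h => hai h.1.symm)]
        exact he0 _ ⟨a, hai, rfl⟩
    · rw [if_neg hab, if_neg]
      rintro ⟨h1, h2⟩
      exact hab (h1.symm.trans h2)
  choose p hp using hpk
  have hd : ∀ a, ∃ M, r.ρ (δ a) = r.ρ a * M - M * r.ρ a := by
    intro a
    obtain ⟨D, hD, hlim⟩ := hδ a
    exact exists_comm_of_tendsto (r.ρ a) (Y := fun k => r.ρ (D k a))
      (fun k => by
        obtain ⟨M, hM⟩ := r.map_der (D k) (hD k)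
        exact ⟨M, hM a⟩) ((r.ρ.continuous.tendsto _).comp hlim)
  have := local_leibniz (r.ρ : A →ₗ[ℂ] Matrix (Fin N) (Fin N) ℂ) r.map_mul p hp
    ((r.ρ.comp δ : A →L[ℂ] Matrix (Fin N) (Fin N) ℂ) : A →ₗ[ℂ] Matrix (Fin N) (Fin N) ℂ) hd a b
  rw [map_add, r.map_mul, r.map_mul]
  exact this

end

end MP_7ad892_an
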