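import Pool.Agent.Lib.MP_7ad892_an.Defs

/-!
# MP_7ad892_an : existence of the universal Toeplitz representation

The main theorem is stated for any universal Toeplitz representation; here we show that one
exists, for every dynamical system.
-/

open scoped ZeroAtInfty Topology ENNReal
open Filter

namespace MP_7ad892_an

universe u

variable {Ω : Type u} [TopologicalSpace Ω] [T2Space Ω] [LocallyCompactSpace Ω]
  {σ : Ω → Ω} {hσ : IsProperMap σ}

/-- *-polynomial expressions in the symbols `π f`, `t F` -/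
inductive Expr (Ω : Type u) [TopologicalSpace Ω] : Type u
  | pi (f : C₀(Ω, ℂ)) : Expr Ω
  | t (F : C₀(Ω, ℂ)) : Expr Ω
  | zero : Expr Ω
  | add (a b : Expr Ω) : Expr Ω
  | mul (a b : Expr Ω) : Expr Ω
  | smul (c : ℂ) (a : Expr Ω) : Expr Ω
  | star (a : Expr Ω) : Expr Ω

/-- evaluation of an expression -/
noncomputable def ev {C : Type*} [NonUnitalCStarAlgebra C] (ρ : ToeplitzRep hσ C) : Expr Ω → C
  | .pi f => ρ.π f
  | .t F => ρ.t F
  | .zero => 0
  | .add a b => ev ρ a + ev ρ b
  | .mul a b => ev ρ a * ev ρ b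
  | .smul c a => c • ev ρ a
  | .star a => star (ev ρ a)

theorem t_norm_le {C : Type*} [NonUnitalCStarAlgebra C] (ρ : ToeplitzRep hσ C) (F : C₀(Ω, ℂ)) :
    ‖ρ.t F‖ ≤ ‖F‖ := by
  have h2 : ‖ρ.t F‖ * ‖ρ.t F‖ ≤ ‖F‖ * ‖F‖ := by
    rw [← CStarRing.norm_star_mul_self, ρ.t_inner, ← CStarRing.norm_star_mul_self (x := F)]
    exact NonUnitalStarAlgHom.norm_apply_le ρ.π _
  exact abs_le_of_sq_le_sq' (by nlinarith) (norm_nonneg _) |>.2

/-- the index set: C*-seminorms on expressions coming from Toeplitz representations -/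
def Idx (hσ : IsProperMap σ) : Type u :=
  {p : Expr Ω → ℝ // ∃ (C : Type u) (_ : NonUnitalCStarAlgebra C) (ρ : ToeplitzRep hσ C),
    p = fun e => ‖ev ρ e‖}

/-- chosen algebra -/
def CC (i : Idx hσ) : Type u := i.2.choose

noncomputable instance (i : Idx hσ) : NonUnitalCStarAlgebra (CC i) := i.2.choose_spec.choose

/-- chosen representation -/
noncomputable def rr (i : Idx hσ) : ToeplitzRep hσ (CC i) := i.2.choose_spec.choose_spec.choose

theorem rr_spec (i : Idx hσ) (e : Expr Ω) : i.1 e = ‖ev (rr i) e‖ :=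
  congrFun i.2.choose_spec.choose_spec.choose_spec e

/-- the big product -/
abbrev Big (hσ : IsProperMap σ) : Type u := lp (fun i : Idx hσ => CC i) ∞

/-- the product representation -/
noncomputable def bigRep (hσ : IsProperMap σ) : ToeplitzRep hσ (Big hσ) where
  π :=
    { toFun := fun f => ⟨fun i => (rr i).π f, memℓp_infty ⟨‖f‖, by
        rintro _ ⟨i, rfl⟩
        exact NonUnitalStarAlgHom.norm_apply_le _ _⟩⟩
      map_smul' := fun c f => by ext i; exact map_smul (rr i).π c f
      map_zero' := by ext i; exact map_zero (rr i).π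
      map_add' := fun f g => by ext i; exact map_add (rr i).π f g
      map_mul' := fun f g => by ext i; exact map_mul (rr i).π f g
      map_star' := fun f => by ext i; exact map_star (rr i).π f }
  t :=
    { toFun := fun F => ⟨fun i => (rr i).t F, memℓp_infty ⟨‖F‖, by
        rintro _ ⟨i, rfl⟩
        exact t_norm_le _ _⟩⟩
      map_add' := fun f g => by ext i; exact map_add (rr i).t f g
      map_smul' := fun c f => by ext i; exact map_smul (rr i).t c f }
  t_left := fun f F => by ext i; exact (rr i).t_left f F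
  t_right := fun f F => by ext i; exact (rr i).t_right f F
  t_inner := fun f F => by ext i; exact (rr i).t_inner f F

theorem ev_bigRep (e : Expr Ω) (i : Idx hσ) :
    ((ev (bigRep hσ) e : Big hσ) : ∀ i, CC i) i = ev (rr i) e := by
  induction e with
  | pi f => rfl
  | t F => rfl
  | zero => rfl
  | add a b iha ihb => rw [ev, ev, ← iha, ← ihb]; rfl
  | mul a b iha ihb => rw [ev, ev, ← iha, ← ihb]; rfl
  | smul c a iha => rw [ev, ev, ← iha]; rfl
  | star a iha => rw [ev, ev, ← iha]; rfl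

/-- the C*-algebra generated in the big product -/
noncomputable def TS (hσ : IsProperMap σ) : NonUnitalStarSubalgebra ℂ (Big hσ) :=
  (NonUnitalStarAlgebra.adjoin ℂ
    (Set.range (bigRep hσ).π ∪ Set.range (bigRep hσ).t)).topologicalClosure

instance (hσ : IsProperMap σ) : IsClosed (TS hσ : Set (Big hσ)) :=
  NonUnitalStarSubalgebra.isClosed_topologicalClosure _

/-- `𝒯_X` -/
abbrev TX (hσ : IsProperMap σ) : Type u := TS hσ

theorem gen_mem (hσ : IsProperMap σ) {y : Big hσ}
    (hy : y ∈ Set.range (bigRep hσ).π ∪ Set.range (bigRep hσ).t) : y ∈ TS hσ :=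
  NonUnitalStarSubalgebra.le_topologicalClosure _ (NonUnitalStarAlgebra.subset_adjoin ℂ _ hy)

/-- the universal Toeplitz representation -/
noncomputable def uRep (hσ : IsProperMap σ) : ToeplitzRep hσ (TX hσ) where
  π :=
    { toFun := fun f => ⟨(bigRep hσ).π f, gen_mem hσ (Or.inl ⟨f, rfl⟩)⟩
      map_smul' := fun c f => Subtype.ext (map_smul (bigRep hσ).π c f)
      map_zero' := Subtype.ext (map_zero (bigRep hσ).π)
      map_add' := fun f g => Subtype.ext (map_add (bigRep hσ).π f g)
      map_mul' := fun f g => Subtype.ext (map_mul (bigRep hσ).π f g)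
      map_star' := fun f => Subtype.ext (map_star (bigRep hσ).π f) }
  t :=
    { toFun := fun F => ⟨(bigRep hσ).t F, gen_mem hσ (Or.inr ⟨F, rfl⟩)⟩
      map_add' := fun f g => Subtype.ext (map_add (bigRep hσ).t f g)
      map_smul' := fun c f => Subtype.ext (map_smul (bigRep hσ).t c f) }
  t_left := fun f F => Subtype.ext ((bigRep hσ).t_left f F)
  t_right := fun f F => Subtype.ext ((bigRep hσ).t_right f F)
  t_inner := fun f F => Subtype.ext ((bigRep hσ).t_inner f F)

theorem ev_uRep (e : Expr Ω) : ((ev (uRep hσ) e : TX hσ) : Big hσ) = ev (bigRep hσ) e := by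
  induction e with
  | pi f => rfl
  | t F => rfl
  | zero => rfl
  | add a b iha ihb => rw [ev, ev, ← iha, ← ihb]; rfl
  | mul a b iha ihb => rw [ev, ev, ← iha, ← ihb]; rfl
  | smul c a iha => rw [ev, ev, ← iha]; rfl
  | star a iha => rw [ev, ev, ← iha]; rfl

/-- the *-algebra generated consists of the evaluations of expressions -/
theorem exists_expr {C : Type*} [NonUnitalCStarAlgebra C] {ρ : ToeplitzRep hσ C} {c : C}
    (hc : c ∈ NonUnitalStarAlgebra.adjoin ℂ (Set.range ρ.π ∪ Set.range ρ.t)) :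
    ∃ e, ev ρ e = c := by
  induction hc using NonUnitalStarAlgebra.adjoin_induction with
  | mem x hx =>
    rcases hx with ⟨f, rfl⟩ | ⟨F, rfl⟩
    · exact ⟨.pi f, rfl⟩
    · exact ⟨.t F, rfl⟩
  | zero => exact ⟨.zero, rfl⟩
  | add x y _ _ hx hy =>
    obtain ⟨a, rfl⟩ := hx
    obtain ⟨b, rfl⟩ := hy
    exact ⟨.add a b, rfl⟩
  | mul x y _ _ hx hy =>
    obtain ⟨a, rfl⟩ := hx
    obtain ⟨b, rfl⟩ := hy
    exact ⟨.mul a b, rfl⟩
  | smul c x _ hx =>
    obtain ⟨a, rfl⟩ := hx
    exact ⟨.smul c a, rfl⟩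
  | star x _ hx =>
    obtain ⟨a, rfl⟩ := hx
    exact ⟨.star a, rfl⟩

theorem ev_mem_adjoin {C : Type*} [NonUnitalCStarAlgebra C] (ρ : ToeplitzRep hσ C) (e : Expr Ω) :
    ev ρ e ∈ NonUnitalStarAlgebra.adjoin ℂ (Set.range ρ.π ∪ Set.range ρ.t) := by
  induction e with
  | pi f => exact NonUnitalStarAlgebra.subset_adjoin ℂ _ (Or.inl ⟨f, rfl⟩)
  | t F => exact NonUnitalStarAlgebra.subset_adjoin ℂ _ (Or.inr ⟨F, rfl⟩)
  | zero => exact zero_mem _
  | add a b iha ihb => exact add_mem iha ihb
  | mul a b iha ihb => exact mul_mem iha ihb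
  | smul c a iha => exact SMulMemClass.smul_mem c iha
  | star a iha => exact star_mem iha

/-- density of evaluations in `𝒯_X` -/
theorem dense_ev (b : TX hσ) : b ∈ closure (Set.range (ev (uRep hσ))) := by
  rw [closure_subtype]
  have hb : (b : Big hσ) ∈ closure ((NonUnitalStarAlgebra.adjoin ℂ
    (Set.range (bigRep hσ).π ∪ Set.range (bigRep hσ).t) : NonUnitalStarSubalgebra ℂ (Big hσ)) :
      Set (Big hσ)) := b.2
  refine closure_mono ?_ hb
  intro c hc
  obtain ⟨e, rfl⟩ := exists_expr hc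
  exact ⟨_, ⟨e, rfl⟩, ev_uRep e⟩

theorem ev_le {C : Type u} [NonUnitalCStarAlgebra C] (ρ : ToeplitzRep hσ C) (e : Expr Ω) :
    ‖ev ρ e‖ ≤ ‖ev (uRep hσ) e‖ := by
  let i : Idx hσ := ⟨fun e => ‖ev ρ e‖, C, _, ρ, rfl⟩
  have h1 : ‖ev ρ e‖ = ‖ev (rr i) e‖ := rr_spec i e
  have h2 : ‖ev (uRep hσ) e‖ = ‖ev (bigRep hσ) e‖ := by
    rw [← ev_uRep]; rfl
  rw [h1, h2, ← ev_bigRep]
  exact lp.norm_apply_le_norm (by simp) _ i

/-- **The universal Toeplitz representation exists.** -/
theorem uRep_isUniversal (hσ : IsProperMap σ) : (uRep hσ).IsUniversal where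
  generates := by
    rw [eq_top_iff]
    intro b _
    refine closure_mono ?_ (dense_ev b)
    rintro _ ⟨e, rfl⟩
    exact ev_mem_adjoin _ e
  lift := by
    intro C _ ρ
    -- the joint representation
    let J : ToeplitzRep hσ (TX hσ × C) :=
      { π := (uRep hσ).π.prod ρ.π
        t := (uRep hσ).t.prod ρ.t
        t_left := fun f F => Prod.ext ((uRep hσ).t_left f F) (ρ.t_left f F)
        t_right := fun f F => Prod.ext ((uRep hσ).t_right f F) (ρ.t_right f F)
        t_inner := fun f F => Prod.ext ((uRep hσ).t_inner f F) (ρ.t_inner f F) }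
    have hJ : ∀ e, ev J e = (ev (uRep hσ) e, ev ρ e) := by
      intro e
      induction e with
      | pi f => rfl
      | t F => rfl
      | zero => rfl
      | add a b iha ihb => rw [ev, iha, ihb]; rfl
      | mul a b iha ihb => rw [ev, iha, ihb]; rfl
      | smul c a iha => rw [ev, iha]; rfl
      | star a iha => rw [ev, iha]; rfl
    let E : NonUnitalStarSubalgebra ℂ (TX hσ × C) :=
      (NonUnitalStarAlgebra.adjoin ℂ (Set.range J.π ∪ Set.range J.t)).topologicalClosure
    have hEcl : IsClosed (E : Set (TX hσ × C)) :=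
      NonUnitalStarSubalgebra.isClosed_topologicalClosure _
    have hEev : ∀ e, (ev (uRep hσ) e, ev ρ e) ∈ E := by
      intro e
      rw [← hJ]
      exact NonUnitalStarSubalgebra.le_topologicalClosure _ (ev_mem_adjoin J e)
    have hle : ∀ y ∈ E, ‖y.2‖ ≤ ‖y.1‖ := by
      intro y hy
      have hcl : IsClosed {y : TX hσ × C | ‖y.2‖ ≤ ‖y.1‖} :=
        isClosed_le (by fun_prop) (by fun_prop)
      refine hcl.closure_subset_iff.2 ?_ hy
      intro z hz
      obtain ⟨e, rfl⟩ := exists_expr hz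
      rw [hJ]
      exact ev_le ρ e
    -- first projection
    let p1 : E →⋆ₙₐ[ℂ] TX hσ :=
      (NonUnitalStarAlgHom.fst ℂ (TX hσ) C).comp (NonUnitalStarSubalgebraClass.subtype E)
    have hp1 : ∀ y : E, p1 y = (y : TX hσ × C).1 := fun y => rfl
    have hiso : Isometry p1 := by
      refine AddMonoidHomClass.isometry_of_norm p1 fun y => ?_
      rw [hp1]
      have h1 := hle y y.2
      change _ = max ‖(y : TX hσ × C).1‖ ‖(y : TX hσ × C).2‖
      rw [max_eq_left h1]
    have hsurj : Function.Surjective p1 := by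
      intro b
      have : CompleteSpace E := hEcl.completeSpace_coe
      have hcl : IsClosed (Set.range p1) := hiso.isClosedEmbedding.isClosed_range
      have : Set.range (ev (uRep hσ)) ⊆ Set.range p1 := by
        rintro _ ⟨e, rfl⟩
        exact ⟨⟨_, hEev e⟩, rfl⟩
      exact hcl.closure_subset_iff.2 this (dense_ev b)
    let q : E ≃⋆ₐ[ℂ] TX hσ := StarAlgEquiv.ofBijective p1 ⟨hiso.injective, hsurj⟩
    let p2 : E →⋆ₙₐ[ℂ] C :=
      (NonUnitalStarAlgHom.snd ℂ (TX hσ) C).comp (NonUnitalStarSubalgebraClass.subtype E)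
    refine ⟨p2.comp (q.symm : TX hσ →⋆ₙₐ[ℂ] E), fun f => ?_, fun F => ?_⟩
    · have h1 : q.symm ((uRep hσ).π f) = ⟨_, hEev (.pi f)⟩ := by
        rw [StarAlgEquiv.symm_apply_eq]; rfl
      change p2 (q.symm ((uRep hσ).π f)) = _
      rw [h1]; rfl
    · have h1 : q.symm ((uRep hσ).t F) = ⟨_, hEev (.t F)⟩ := by
        rw [StarAlgEquiv.symm_apply_eq]; rfl
      change p2 (q.symm ((uRep hσ).t F)) = _
      rw [h1]; rfl

end MP_7ad892_an
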