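import Pool.Agent.Lib.MP_7ad892_an.Graded

/-!
# MP_7ad892_an : Fejér means; the orbit representations separate points of the semicrossed product
-/

open scoped ZeroAtInfty Topology InnerProductSpace Classical ComplexConjugate
open Filter

namespace MP_7ad892_an

section Roots

theorem roots_orthogonal {R : ℕ} {ζ : ℂ} (hζ : IsPrimitiveRoot ζ R) (hn : ‖ζ‖ = 1) {a b : ℕ}
    (ha : a < R) (hb : b < R) :
    ∑ s ∈ Finset.range R, (ζ ^ s) ^ a * conj (ζ ^ s) ^ b = if a = b then (R : ℂ) else 0 := by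
  have hζ0 : ζ ≠ 0 := by
    rintro rfl
    simp at hn
  have hc : conj ζ = ζ⁻¹ := by
    rw [Complex.inv_def, Complex.normSq_eq_norm_sq, hn]; simp
  have h1 : ∀ s, (ζ ^ s) ^ a * conj (ζ ^ s) ^ b = (ζ ^ a * (ζ ^ b)⁻¹) ^ s := by
    intro s
    rw [map_pow, hc, mul_pow, inv_pow, inv_pow, inv_pow, ← pow_mul, ← pow_mul, ← pow_mul,
      ← pow_mul, mul_comm s a, mul_comm s b]
  rw [Finset.sum_congr rfl fun s _ => h1 s]
  split_ifs with h
  · subst h
    rw [mul_inv_cancel₀ (pow_ne_zero _ hζ0)]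
    simp
  · have hq : ζ ^ a * (ζ ^ b)⁻¹ ≠ 1 := by
      intro h2
      apply h
      apply hζ.pow_inj ha hb
      have := mul_inv_eq_one₀ (pow_ne_zero b hζ0) |>.1 h2
      exact this
    rw [geom_sum_eq hq]
    have : (ζ ^ a * (ζ ^ b)⁻¹) ^ R = 1 := by
      rw [mul_pow, inv_pow, ← pow_mul, ← pow_mul, mul_comm a R, mul_comm b R, pow_mul, pow_mul,
        hζ.pow_eq_one]
      simp
    rw [this, sub_self, zero_div]

/-- `k_M(z) = ∑_{m<M} z^m` -/
noncomputable def dir (M : ℕ) (z : ℂ) : ℂ := ∑ m ∈ Finset.range M, z ^ m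

theorem fejer_coeff {R M d : ℕ} {ζ : ℂ} (hζ : IsPrimitiveRoot ζ R) (hn : ‖ζ‖ = 1)
    (hd : M + d ≤ R) :
    ∑ s ∈ Finset.range R, (dir M (ζ ^ s) * conj (dir M (ζ ^ s))) * (ζ ^ s) ^ d =
      (R : ℂ) * ((M - d : ℕ) : ℂ) := by
  have h1 : ∀ s, (dir M (ζ ^ s) * conj (dir M (ζ ^ s))) * (ζ ^ s) ^ d =
      ∑ m ∈ Finset.range M, ∑ m' ∈ Finset.range M, (ζ ^ s) ^ (m + d) * conj (ζ ^ s) ^ m' := by
    intro s
    rw [dir, map_sum, Finset.sum_mul_sum, Finset.sum_mul]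
    refine Finset.sum_congr rfl fun m _ => ?_
    rw [Finset.sum_mul]
    refine Finset.sum_congr rfl fun m' _ => ?_
    rw [map_pow, pow_add]
    ring
  rw [Finset.sum_congr rfl fun s _ => h1 s, Finset.sum_comm]
  have h2 : ∀ m ∈ Finset.range M, ∑ s ∈ Finset.range R, ∑ m' ∈ Finset.range M,
      (ζ ^ s) ^ (m + d) * conj (ζ ^ s) ^ m' = if m + d < M then (R : ℂ) else 0 := by
    intro m hm
    rw [Finset.sum_comm]
    have hm' := Finset.mem_range.1 hm
    have : ∀ m' ∈ Finset.range M, ∑ s ∈ Finset.range R, (ζ ^ s) ^ (m + d) * conj (ζ ^ s) ^ m' =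
        if m + d = m' then (R : ℂ) else 0 := by
      intro m' hm2
      have := Finset.mem_range.1 hm2
      exact roots_orthogonal hζ hn (by omega) (by omega)
    rw [Finset.sum_congr rfl this, Finset.sum_ite_eq]
    simp
  rw [Finset.sum_congr rfl h2, ← Finset.sum_filter]
  have h3 : (Finset.range M).filter (fun m => m + d < M) = Finset.range (M - d) := by
    ext m
    simp only [Finset.mem_filter, Finset.mem_range]
    omega
  rw [h3, Finset.sum_const, Finset.card_range, nsmul_eq_mul, mul_comm]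

end Roots

section Total

variable {Ω : Type*} [TopologicalSpace Ω] [T2Space Ω] [LocallyCompactSpace Ω]
  {σ : Ω → Ω} {hσ : IsProperMap σ} {B : Type*} [NonUnitalCStarAlgebra B]

/-- `f ↦ ∑_d c_d f_d` -/
noncomputable def wsum (B : Type*) [NonUnitalCStarAlgebra B] (c : ℕ → ℂ) : (ℕ →₀ B) →ₗ[ℂ] B :=
  Finsupp.lsum ℂ fun d => c d • LinearMap.id

theorem wsum_apply (c : ℕ → ℂ) (f : ℕ →₀ B) : wsum B c f = ∑ d ∈ f.support, c d • f d := by
  rw [wsum, Finsupp.lsum_apply, Finsupp.sum]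
  rfl

/-- a finitely supported sequence of homogeneous elements -/
def IsHom (ρ : ToeplitzRep hσ B) (f : ℕ →₀ B) : Prop := ∀ d, ∃ G, Homog ρ d (f d) G

variable {ρ : ToeplitzRep hσ B}

theorem IsHom.add {f g : ℕ →₀ B} (hf : IsHom ρ f) (hg : IsHom ρ g) : IsHom ρ (f + g) := by
  intro d
  obtain ⟨G, hG⟩ := hf d
  obtain ⟨K, hK⟩ := hg d
  exact ⟨G + K, hG.add hK⟩

theorem IsHom.smul {f : ℕ →₀ B} (hf : IsHom ρ f) (c : ℂ) : IsHom ρ (c • f) := by
  intro d
  obtain ⟨G, hG⟩ := hf d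
  exact ⟨c • G, hG.smul c⟩

theorem IsHom.sub {f g : ℕ →₀ B} (hf : IsHom ρ f) (hg : IsHom ρ g) : IsHom ρ (f - g) := by
  have := hf.add (hg.smul (-1))
  rwa [neg_one_smul, ← sub_eq_add_neg] at this

/-- the span of homogeneous elements -/
def homSpan (ρ : ToeplitzRep hσ B) : Submodule ℂ B :=
  Submodule.span ℂ {p | ∃ d G, Homog ρ d p G}

theorem exists_hom_of_mem {a : B} (ha : a ∈ homSpan ρ) :
    ∃ f : ℕ →₀ B, IsHom ρ f ∧ wsum B (fun _ => 1) f = a := by
  induction ha using Submodule.span_induction with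
  | mem p hp =>
    obtain ⟨d, G, h⟩ := hp
    refine ⟨Finsupp.single d p, ?_, ?_⟩
    · intro e
      by_cases he : d = e
      · subst he
        rw [Finsupp.single_eq_same]
        exact ⟨G, h⟩
      · rw [Finsupp.single_eq_of_ne (Ne.symm he)]
        exact ⟨0, Homog.zero e⟩
    · rw [wsum]
      simp
  | zero => exact ⟨0, fun d => ⟨0, Homog.zero d⟩, map_zero _⟩
  | add x y _ _ hx hy =>
    obtain ⟨f, hf, rfl⟩ := hx
    obtain ⟨g, hg, rfl⟩ := hy
    exact ⟨f + g, hf.add hg, map_add _ _ _⟩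
  | smul c x _ hx =>
    obtain ⟨f, hf, rfl⟩ := hx
    exact ⟨c • f, hf.smul c, map_smul _ _ _⟩

theorem homSpan_mul {a : B} (g : B) (hg : ∀ d p G, Homog ρ d p G → g * p ∈ homSpan ρ)
    (ha : a ∈ homSpan ρ) : g * a ∈ homSpan ρ := by
  induction ha using Submodule.span_induction with
  | mem p hp =>
    obtain ⟨d, G, h⟩ := hp
    exact hg d p G h
  | zero => rw [mul_zero]; exact zero_mem _
  | add x y _ _ hx hy => rw [mul_add]; exact add_mem hx hy
  | smul c x _ hx => rw [mul_smul_comm]; exact Submodule.smul_mem _ _ hx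

theorem adjoin_le_homSpan {a : B}
    (ha : a ∈ NonUnitalAlgebra.adjoin ℂ (Set.range ρ.π ∪ Set.range ρ.t)) :
    a ∈ homSpan ρ ∧ ∀ b ∈ homSpan ρ, a * b ∈ homSpan ρ := by
  induction ha using NonUnitalAlgebra.adjoin_induction with
  | mem x hx =>
    rcases hx with ⟨f, rfl⟩ | ⟨F, rfl⟩
    · refine ⟨Submodule.subset_span ⟨0, f, Homog.base f⟩, fun b hb => homSpan_mul _ ?_ hb⟩
      intro d p G h
      exact Submodule.subset_span ⟨_, _, h.π_mul f⟩
    · refine ⟨Submodule.subset_span ⟨1, F, Homog.t F⟩, fun b hb => homSpan_mul _ ?_ hb⟩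
      intro d p G h
      exact Submodule.subset_span ⟨_, _, Homog.step F h⟩
  | zero => exact ⟨zero_mem _, fun b _ => by rw [zero_mul]; exact zero_mem _⟩
  | add x y _ _ hx hy =>
    exact ⟨add_mem hx.1 hy.1, fun b hb => by rw [add_mul]; exact add_mem (hx.2 b hb) (hy.2 b hb)⟩
  | mul x y _ _ hx hy =>
    exact ⟨hx.2 _ hy.1, fun b hb => by rw [mul_assoc]; exact hx.2 _ (hy.2 b hb)⟩
  | smul c x _ hx =>
    exact ⟨Submodule.smul_mem _ _ hx.1, fun b hb => by
      rw [smul_mul_assoc]; exact Submodule.smul_mem _ _ (hx.2 b hb)⟩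

/-- Fejér's inequality. -/
theorem fejer_le (hgauge : ∀ z : ℂ, ‖z‖ = 1 → ∃ Φ : B →⋆ₙₐ[ℂ] B,
      (∀ f, Φ (ρ.π f) = ρ.π f) ∧ ∀ F, Φ (ρ.t F) = z • ρ.t F)
    (M : ℕ) {f : ℕ →₀ B} (hf : IsHom ρ f) :
    ‖wsum B (fun d => ((M - d : ℕ) : ℂ)) f‖ ≤ M * ‖wsum B (fun _ => 1) f‖ := by
  obtain ⟨L, hL⟩ : ∃ L, ∀ d ∈ f.support, d < L := by
    refine ⟨f.support.sup id + 1, fun d hd => Nat.lt_succ_of_le ?_⟩
    exact Finset.le_sup (f := id) hd
  set R := M + L + 1 with hR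
  have hR0 : R ≠ 0 := by omega
  set ζ := Complex.exp (2 * Real.pi * Complex.I / R) with hζdef
  have hζ : IsPrimitiveRoot ζ R := Complex.isPrimitiveRoot_exp R hR0
  have hn : ‖ζ‖ = 1 := hζ.norm'_eq_one hR0
  choose! γ hγ using hgauge
  have hz : ∀ s, ‖ζ ^ s‖ = 1 := fun s => by rw [norm_pow, hn, one_pow]
  set a := wsum B (fun _ => 1) f with ha
  have hγa : ∀ s, γ (ζ ^ s) a = ∑ d ∈ f.support, (ζ ^ s) ^ d • f d := by
    intro s
    rw [ha, wsum_apply, map_sum]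
    refine Finset.sum_congr rfl fun d _ => ?_
    obtain ⟨G, hG⟩ := hf d
    rw [one_smul, hG.gauge (hγ _ (hz s)).1 (hγ _ (hz s)).2]
  have hE : ∑ s ∈ Finset.range R, (dir M (ζ ^ s) * conj (dir M (ζ ^ s))) • γ (ζ ^ s) a =
      (R : ℂ) • wsum B (fun d => ((M - d : ℕ) : ℂ)) f := by
    have h1 : ∀ s ∈ Finset.range R,
        (dir M (ζ ^ s) * conj (dir M (ζ ^ s))) • γ (ζ ^ s) a =
        ∑ d ∈ f.support, ((dir M (ζ ^ s) * conj (dir M (ζ ^ s))) * (ζ ^ s) ^ d) • f d := by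
      intro s _
      rw [hγa, Finset.smul_sum]
      refine Finset.sum_congr rfl fun d _ => ?_
      rw [smul_smul]
    rw [Finset.sum_congr rfl h1, Finset.sum_comm, wsum_apply, Finset.smul_sum]
    refine Finset.sum_congr rfl fun d hd => ?_
    rw [← Finset.sum_smul, fejer_coeff hζ hn (by have := hL d hd; omega), smul_smul]
  have hpos : ∀ z : ℂ, dir M z * conj (dir M z) = ((‖dir M z‖ ^ 2 : ℝ) : ℂ) := by
    intro z
    rw [Complex.mul_conj, Complex.normSq_eq_norm_sq]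
  have hsum : ∑ s ∈ Finset.range R, ‖dir M (ζ ^ s)‖ ^ 2 = (R : ℝ) * M := by
    have h1 := fejer_coeff (M := M) (d := 0) hζ hn (by omega)
    simp only [pow_zero, mul_one, Nat.sub_zero, hpos] at h1
    exact_mod_cast h1
  have hnorm : ‖∑ s ∈ Finset.range R, (dir M (ζ ^ s) * conj (dir M (ζ ^ s))) • γ (ζ ^ s) a‖ ≤
      (R : ℝ) * M * ‖a‖ := by
    calc _ ≤ ∑ s ∈ Finset.range R, ‖(dir M (ζ ^ s) * conj (dir M (ζ ^ s))) • γ (ζ ^ s) a‖ :=
          norm_sum_le _ _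
      _ ≤ ∑ s ∈ Finset.range R, ‖dir M (ζ ^ s)‖ ^ 2 * ‖a‖ := by
          refine Finset.sum_le_sum fun s _ => ?_
          rw [norm_smul, hpos, Complex.norm_real, Real.norm_of_nonneg (by positivity)]
          gcongr
          exact NonUnitalStarAlgHom.norm_apply_le _ _
      _ = (R : ℝ) * M * ‖a‖ := by rw [← Finset.sum_mul, hsum]
  rw [hE, norm_smul, Complex.norm_natCast, mul_assoc] at hnorm
  exact le_of_mul_le_mul_left hnorm (by positivity)

end Total

end MP_7ad892_an
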