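import Pool.Agent.Lib.MP_7ad892_an.Lift
import Pool.Agent.Lib.MP_7ad892_an.Factor

/-!
# MP_7ad892_an : homogeneous elements
-/

open scoped ZeroAtInfty Topology InnerProductSpace Classical
open Filter

namespace MP_7ad892_an

section

variable {Ω : Type*} [TopologicalSpace Ω] [T2Space Ω] [LocallyCompactSpace Ω]
  {σ : Ω → Ω} {hσ : IsProperMap σ} {B : Type*} [NonUnitalCStarAlgebra B]

theorem pull_iterate_apply (hσ : IsProperMap σ) (d : ℕ) (F : C₀(Ω, ℂ)) (y : Ω) :
    ((pull hσ)^[d] F) y = F (σ^[d] y) := by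
  induction d generalizing F with
  | zero => rfl
  | succ d ih => rw [Function.iterate_succ_apply, ih, pull_apply, Function.iterate_succ_apply']

/-- `p` is homogeneous of degree `d` with symbol `G` (formally `p = U^d G`). -/
inductive Homog (ρ : ToeplitzRep hσ B) : ℕ → B → C₀(Ω, ℂ) → Prop
  | base (f : C₀(Ω, ℂ)) : Homog ρ 0 (ρ.π f) f
  | step {d : ℕ} {p : B} {G : C₀(Ω, ℂ)} (F : C₀(Ω, ℂ)) (h : Homog ρ d p G) :
      Homog ρ (d + 1) (ρ.t F * p) ((pull hσ)^[d] F * G)
  | add {d : ℕ} {p q : B} {G K : C₀(Ω, ℂ)} (h : Homog ρ d p G) (h' : Homog ρ d q K) :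
      Homog ρ d (p + q) (G + K)
  | smul {d : ℕ} {p : B} {G : C₀(Ω, ℂ)} (c : ℂ) (h : Homog ρ d p G) : Homog ρ d (c • p) (c • G)

variable {ρ : ToeplitzRep hσ B}

theorem Homog.zero (d : ℕ) : Homog ρ d 0 0 := by
  induction d with
  | zero =>
    have := Homog.base (ρ := ρ) 0
    rwa [map_zero] at this
  | succ d ih =>
    have := Homog.step 0 ih
    rwa [map_zero, mul_zero, mul_zero] at this

theorem Homog.congr {d : ℕ} {p q : B} {G K : C₀(Ω, ℂ)} (h : Homog ρ d p G) (hp : p = q)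
    (hG : G = K) : Homog ρ d q K := by
  subst hp; subst hG; exact h

theorem Homog.π_mul {d : ℕ} {p : B} {G : C₀(Ω, ℂ)} (h : Homog ρ d p G) (f : C₀(Ω, ℂ)) :
    Homog ρ d (ρ.π f * p) ((pull hσ)^[d] f * G) := by
  induction h with
  | base g => exact (Homog.base (f * g)).congr (by rw [map_mul]) rfl
  | step F h _ =>
    refine (Homog.step (pull hσ f * F) h).congr ?_ ?_
    · rw [ρ.t_left, mul_assoc]
    · ext y
      simp only [ZeroAtInftyContinuousMap.mul_apply, pull_iterate_apply, pull_apply]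
      rw [Function.iterate_succ_apply']
      ring
  | add _ _ ih1 ih2 => exact (Homog.add ih1 ih2).congr (by rw [mul_add]) (by rw [mul_add])
  | smul c _ ih =>
    exact (Homog.smul c ih).congr (by rw [mul_smul_comm]) (by rw [mul_smul_comm])

theorem Homog.eq_π {q : B} {K : C₀(Ω, ℂ)} (h : Homog ρ 0 q K) : q = ρ.π K := by
  generalize hd : 0 = d at h
  induction h with
  | base f => rfl
  | step F h _ => exact absurd hd (by omega)
  | add _ _ ih1 ih2 => rw [ih1 hd, ih2 hd, map_add]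
  | smul c _ ih => rw [ih hd, map_smul]

theorem Homog.star_mul_eq {d : ℕ} {p : B} {G : C₀(Ω, ℂ)} (h : Homog ρ d p G) :
    ∀ {q : B} {K : C₀(Ω, ℂ)}, Homog ρ d q K → star p * q = ρ.π (star G * K) := by
  induction h with
  | base f =>
    intro q K hq
    rw [hq.eq_π, map_mul, map_star]
  | @step d p G F h ih =>
    intro q K hq
    generalize hd : d + 1 = e at hq
    induction hq with
    | base f => omega
    | @step e q K F' h' _ =>
      obtain rfl : d = e := by omega
      have h1 := ih (h'.π_mul (star F * F'))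
      rw [star_mul, mul_assoc, ← mul_assoc (star (ρ.t F)), ρ.t_inner, h1]
      congr 1
      ext y
      simp only [ZeroAtInftyContinuousMap.mul_apply, pull_iterate_apply,
        ZeroAtInftyContinuousMap.star_apply, star_mul]
      ring
    | add _ _ ih1 ih2 => rw [mul_add, ih1 hd, ih2 hd, mul_add, map_add]
    | smul c _ ih1 => rw [mul_smul_comm, ih1 hd, mul_smul_comm, map_smul]
  | add _ _ ih1 ih2 =>
    intro q K hq
    rw [star_add, add_mul, ih1 hq, ih2 hq, star_add, add_mul, map_add]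
  | smul c _ ih1 =>
    intro q K hq
    rw [star_smul, smul_mul_assoc, ih1 hq, star_smul, smul_mul_assoc, map_smul]

theorem Homog.norm_le {d : ℕ} {p : B} {G : C₀(Ω, ℂ)} (h : Homog ρ d p G) : ‖p‖ ≤ ‖G‖ := by
  have h1 := h.star_mul_eq h
  have h2 : ‖p‖ * ‖p‖ ≤ ‖G‖ * ‖G‖ := by
    rw [← CStarRing.norm_star_mul_self, h1, ← CStarRing.norm_star_mul_self (x := G)]
    exact NonUnitalStarAlgHom.norm_apply_le ρ.π _
  exact abs_le_of_sq_le_sq' (by nlinarith) (norm_nonneg _) |>.2

theorem Homog.gauge {γ : B →⋆ₙₐ[ℂ] B} {z : ℂ} (hγπ : ∀ f, γ (ρ.π f) = ρ.π f)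
    (hγt : ∀ F, γ (ρ.t F) = z • ρ.t F) {d : ℕ} {p : B} {G : C₀(Ω, ℂ)} (h : Homog ρ d p G) :
    γ p = z ^ d • p := by
  induction h with
  | base f => rw [hγπ, pow_zero, one_smul]
  | step F h ih =>
    rw [map_mul, hγt, ih, pow_succ, smul_mul_assoc, mul_smul_comm, smul_smul, mul_comm z]
  | add _ _ ih1 ih2 => rw [map_add, ih1, ih2, smul_add]
  | smul c _ ih => rw [map_smul, ih, smul_comm]

theorem Homog.orbit {Θ : B →⋆ₙₐ[ℂ] (H →L[ℂ] H)} {x : Ω}
    (hπ : ∀ f n, Θ (ρ.π f) (be n) = f (σ^[n] x) • be n)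
    (ht : ∀ F n, Θ (ρ.t F) (be n) = F (σ^[n] x) • be (n + 1))
    {d : ℕ} {p : B} {G : C₀(Ω, ℂ)} (h : Homog ρ d p G) (n : ℕ) :
    Θ p (be n) = G (σ^[n] x) • be (n + d) := by
  induction h with
  | base f => exact hπ f n
  | @step d p G F h ih =>
    rw [map_mul, ContinuousLinearMap.mul_def, ContinuousLinearMap.comp_apply, ih, map_smul, ht,
      smul_smul, ZeroAtInftyContinuousMap.mul_apply, pull_iterate_apply, ← Function.iterate_add_apply,
      mul_comm, add_comm d n, add_assoc]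
  | add _ _ ih1 ih2 => rw [map_add, add_apply, ih1, ih2, ← add_smul]; rfl
  | smul c _ ih => rw [map_smul, smul_apply, ih, smul_smul]; rfl

theorem Homog.t (F : C₀(Ω, ℂ)) : Homog ρ 1 (ρ.t F) F := by
  obtain ⟨G, K, h, -⟩ := exists_factor F
  refine (Homog.step G (Homog.base K)).congr ?_ ?_
  · rw [h, ρ.t_right]
  · rw [h]; rfl

end

end MP_7ad892_an
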