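import Pool.Agent.Lib.MP_7ad892_an.Fejer

/-!
# MP_7ad892_an : the orbit representations separate points of the semicrossed product
-/

open scoped ZeroAtInfty Topology InnerProductSpace Classical ComplexConjugate
open Filter

namespace MP_7ad892_an

variable {Ω : Type*} [TopologicalSpace Ω] [T2Space Ω] [LocallyCompactSpace Ω]
  {σ : Ω → Ω} {hσ : IsProperMap σ} {B : Type*} [NonUnitalCStarAlgebra B] {ρ : ToeplitzRep hσ B}

theorem component_norm_le (Θ : Ω → (B →⋆ₙₐ[ℂ] (H →L[ℂ] H)))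
    (hπ : ∀ x f n, Θ x (ρ.π f) (be n) = f (σ^[n] x) • be n)
    (ht : ∀ x F n, Θ x (ρ.t F) (be n) = F (σ^[n] x) • be (n + 1))
    {a : B} (ha : ∀ x, Θ x a (be 0) = 0) {f : ℕ →₀ B} (hf : IsHom ρ f) (m : ℕ) :
    ‖f m‖ ≤ ‖wsum B (fun _ => 1) f - a‖ := by
  by_cases hm : m ∈ f.support
  swap
  · rw [Finsupp.notMem_support_iff.1 hm, norm_zero]; exact norm_nonneg _
  choose G hG using hf
  refine (hG m).norm_le.trans ?_
  rw [← ZeroAtInftyContinuousMap.norm_toBCF_eq_norm,
    BoundedContinuousFunction.norm_le (norm_nonneg _)]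
  intro x
  have h1 : Θ x (wsum B (fun _ => 1) f - a) (be 0) = ∑ d ∈ f.support, G d x • be d := by
    rw [map_sub, sub_apply, ha, sub_zero, wsum_apply, map_sum, sum_apply]
    refine Finset.sum_congr rfl fun d _ => ?_
    rw [one_smul, (hG d).orbit (hπ x) (ht x), zero_add]
    rfl
  have h2 : ((Θ x (wsum B (fun _ => 1) f - a) (be 0) : H) : ℕ → ℂ) m = G m x := by
    rw [h1, lp.coeFn_sum, Finset.sum_apply]
    rw [Finset.sum_eq_single m]
    · rw [lp.coeFn_smul, Pi.smul_apply, be_apply, if_pos rfl, smul_eq_mul, mul_one]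
    · intro d _ hd
      rw [lp.coeFn_smul, Pi.smul_apply, be_apply, if_neg (Ne.symm hd), smul_zero]
    · intro h; exact absurd hm h
  change ‖G m x‖ ≤ _
  rw [← h2]
  calc _ ≤ ‖Θ x (wsum B (fun _ => 1) f - a) (be 0)‖ := lp.norm_apply_le_norm (by norm_num) _ _
    _ ≤ ‖Θ x (wsum B (fun _ => 1) f - a)‖ * ‖be 0‖ := ContinuousLinearMap.le_opNorm _ _
    _ = ‖Θ x (wsum B (fun _ => 1) f - a)‖ := by rw [be_orthonormal.1 0, mul_one]
    _ ≤ _ := NonUnitalStarAlgHom.norm_apply_le _ _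

theorem eq_zero_of_first_columns (hgauge : ∀ z : ℂ, ‖z‖ = 1 → ∃ Φ : B →⋆ₙₐ[ℂ] B,
      (∀ f, Φ (ρ.π f) = ρ.π f) ∧ ∀ F, Φ (ρ.t F) = z • ρ.t F)
    (Θ : Ω → (B →⋆ₙₐ[ℂ] (H →L[ℂ] H)))
    (hπ : ∀ x f n, Θ x (ρ.π f) (be n) = f (σ^[n] x) • be n)
    (ht : ∀ x F n, Θ x (ρ.t F) (be n) = F (σ^[n] x) • be (n + 1))
    {a : B} (hmem : a ∈ (NonUnitalAlgebra.adjoin ℂ
      (Set.range ρ.π ∪ Set.range ρ.t)).topologicalClosure)
    (ha : ∀ x, Θ x a (be 0) = 0) : a = 0 := by
  have happrox : ∀ ε > 0, ∃ f : ℕ →₀ B, IsHom ρ f ∧ ‖wsum B (fun _ => 1) f - a‖ < ε := by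
    intro ε hε
    have h1 : a ∈ closure ((NonUnitalAlgebra.adjoin ℂ
      (Set.range ρ.π ∪ Set.range ρ.t) : NonUnitalSubalgebra ℂ B) : Set B) := hmem
    obtain ⟨b, hb, hab⟩ := Metric.mem_closure_iff.1 h1 ε hε
    obtain ⟨f, hf, rfl⟩ := exists_hom_of_mem (adjoin_le_homSpan hb).1
    refine ⟨f, hf, ?_⟩
    rwa [dist_comm, dist_eq_norm] at hab
  have key : ∀ ε > 0, ‖a‖ ≤ 5 * ε := by
    intro ε hε
    obtain ⟨f, hf, hfa⟩ := happrox ε hε
    -- a constant for `f`
    set Cf : ℝ := ∑ d ∈ f.support, (d : ℝ) * ‖f d‖ with hCf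
    obtain ⟨M, hM⟩ := exists_nat_gt (Cf / ε)
    have hCf0 : 0 ≤ Cf := Finset.sum_nonneg fun d _ => by positivity
    have hM0 : (0 : ℝ) < M := lt_of_le_of_lt (by positivity) hM
    have hCM : Cf ≤ M * ε := by
      rw [div_lt_iff₀ hε] at hM
      exact hM.le
    obtain ⟨g, hg, hga⟩ := happrox (ε / M) (by positivity)
    set tf := wsum B (fun _ => 1) f with htf
    set tg := wsum B (fun _ => 1) g with htg
    set Ff := wsum B (fun d => ((M - d : ℕ) : ℂ)) f with hFf
    set Fg := wsum B (fun d => ((M - d : ℕ) : ℂ)) g with hFg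
    have h1 : ‖(M : ℂ) • tf - Ff‖ ≤ Cf := by
      rw [htf, hFf, wsum_apply, wsum_apply, Finset.smul_sum, ← Finset.sum_sub_distrib]
      refine (norm_sum_le _ _).trans (Finset.sum_le_sum fun d _ => ?_)
      rw [one_smul, ← sub_smul, norm_smul]
      gcongr
      rw [← Complex.ofReal_natCast M, ← Complex.ofReal_natCast (M - d), ← Complex.ofReal_sub,
        Complex.norm_real, Real.norm_eq_abs]
      by_cases hd : d ≤ M
      · rw [Nat.cast_sub hd]; simp
      · rw [Nat.sub_eq_zero_of_le (not_le.1 hd).le]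
        simp only [Nat.cast_zero, sub_zero, Nat.abs_cast]
        exact_mod_cast (not_le.1 hd).le
    have h2 : ‖Ff - Fg‖ ≤ M * ‖tf - tg‖ := by
      have := fejer_le hgauge M (hf.sub hg)
      rwa [map_sub, map_sub] at this
    have h3 : ‖Fg‖ ≤ M * ε := by
      rw [hFg, wsum_apply]
      calc _ ≤ ∑ d ∈ g.support, ‖((M - d : ℕ) : ℂ) • g d‖ := norm_sum_le _ _
        _ ≤ ∑ d ∈ Finset.range M, M * (ε / M) := by
          rw [← Finset.sum_subset (Finset.inter_subset_left (s₁ := g.support)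
            (s₂ := Finset.range M))]
          · refine (Finset.sum_le_sum fun d _ => ?_).trans
              (Finset.sum_le_sum_of_subset_of_nonneg Finset.inter_subset_right
                (fun d _ _ => by positivity))
            rw [norm_smul, Complex.norm_natCast]
            have := component_norm_le Θ hπ ht ha hg d
            gcongr
            · exact Nat.sub_le _ _
            · exact this.trans hga.le
          · intro d hd hd2
            have : ¬ d < M := fun h => hd2 (Finset.mem_inter.2 ⟨hd, Finset.mem_range.2 h⟩)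
            rw [Nat.sub_eq_zero_of_le (not_lt.1 this), Nat.cast_zero, zero_smul, norm_zero]
        _ = M * ε := by
          rw [Finset.sum_const, Finset.card_range, nsmul_eq_mul]
          field_simp
    have h4 : ‖tf - tg‖ ≤ ε + ε / M := by
      calc ‖tf - tg‖ = ‖(tf - a) - (tg - a)‖ := by congr 1; abel
        _ ≤ ‖tf - a‖ + ‖tg - a‖ := norm_sub_le _ _
        _ ≤ _ := by gcongr
    have hM1 : (1 : ℝ) ≤ M := by
      have : (0 : ℕ) < M := by exact_mod_cast hM0
      exact_mod_cast this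
    have h5 : ‖(M : ℂ) • a‖ ≤ M * (5 * ε) := by
      have e : (M : ℂ) • a = -((M : ℂ) • (tf - a)) + ((M : ℂ) • tf - Ff) + (Ff - Fg) + Fg := by
        rw [smul_sub]; abel
      rw [e]
      have e1 : ‖-((M : ℂ) • (tf - a))‖ ≤ M * ε := by
        rw [norm_neg, norm_smul, Complex.norm_natCast]
        gcongr
      have e2 : M * ‖tf - tg‖ ≤ M * (2 * ε) := by
        have : ε / M ≤ ε := div_le_self hε.le hM1
        gcongr
        linarith
      calc _ ≤ ‖-((M : ℂ) • (tf - a))‖ + ‖(M : ℂ) • tf - Ff‖ + ‖Ff - Fg‖ + ‖Fg‖ := by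
            refine (norm_add_le _ _).trans (add_le_add_left ?_ _)
            refine (norm_add_le _ _).trans (add_le_add_left ?_ _)
            exact norm_add_le _ _
        _ ≤ M * ε + M * ε + M * (2 * ε) + M * ε := by
            gcongr
            · exact h1.trans hCM
            · exact h2.trans e2
        _ = M * (5 * ε) := by ring
    rw [norm_smul, Complex.norm_natCast] at h5
    exact le_of_mul_le_mul_left h5 hM0
  have : ‖a‖ ≤ 0 := by
    apply le_of_forall_pos_le_add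
    intro ε hε
    have := key (ε / 5) (by positivity)
    linarith
  exact norm_le_zero_iff.1 this

end MP_7ad892_an
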