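import Pool.Agent.Lib.MP_7ad892_an.Orbit

/-!
# MP_7ad892_an : consequences of universality: lifting to small C*-algebras and the gauge action
-/

open scoped ZeroAtInfty Topology InnerProductSpace
open Filter

namespace MP_7ad892_an

universe u

variable {Ω : Type u} [TopologicalSpace Ω] [T2Space Ω] [LocallyCompactSpace Ω]
  {σ : Ω → Ω} {hσ : IsProperMap σ} {B : Type u} [NonUnitalCStarAlgebra B] {ρ : ToeplitzRep hσ B}

theorem ToeplitzRep.IsUniversal.lift₀ (hρ : ρ.IsUniversal) {C : Type} [NonUnitalCStarAlgebra C]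
    (ρ' : ToeplitzRep hσ C) :
    ∃ Φ : B →⋆ₙₐ[ℂ] C, (∀ f, Φ (ρ.π f) = ρ'.π f) ∧ ∀ F, Φ (ρ.t F) = ρ'.t F := by
  let ρ'' : ToeplitzRep hσ (PUnit.{u + 1} → C) :=
    { π :=
        { toFun := fun f _ => ρ'.π f
          map_smul' := fun c f => by ext; simp
          map_zero' := by ext; simp
          map_add' := fun f g => by ext; simp
          map_mul' := fun f g => by ext; simp
          map_star' := fun f => by ext; simp [map_star] }
      t :=
        { toFun := fun F _ => ρ'.t F
          map_add' := fun f g => by ext; simp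
          map_smul' := fun c f => by ext; simp }
      t_left := fun f F => by ext; exact ρ'.t_left f F
      t_right := fun f F => by ext; exact ρ'.t_right f F
      t_inner := fun f F => by ext; exact ρ'.t_inner f F }
  obtain ⟨Φ, h1, h2⟩ := hρ.lift _ ρ''
  let ev : (PUnit.{u + 1} → C) →⋆ₙₐ[ℂ] C :=
    { toFun := fun v => v PUnit.unit
      map_smul' := fun c f => rfl
      map_zero' := rfl
      map_add' := fun f g => rfl
      map_mul' := fun f g => rfl
      map_star' := fun f => rfl }
  refine ⟨ev.comp Φ, fun f => ?_, fun F => ?_⟩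
  · change Φ (ρ.π f) PUnit.unit = ρ'.π f
    rw [h1]; rfl
  · change Φ (ρ.t F) PUnit.unit = ρ'.t F
    rw [h2]; rfl

/-- the gauge action -/
theorem ToeplitzRep.IsUniversal.gauge (hρ : ρ.IsUniversal) (z : ℂ) (hz : ‖z‖ = 1) :
    ∃ Φ : B →⋆ₙₐ[ℂ] B, (∀ f, Φ (ρ.π f) = ρ.π f) ∧ ∀ F, Φ (ρ.t F) = z • ρ.t F := by
  let ρ' : ToeplitzRep hσ B :=
    { π := ρ.π
      t := z • ρ.t
      t_left := fun f F => by
        simp [ρ.t_left, mul_smul_comm]
      t_right := fun f F => by
        simp [ρ.t_right, smul_mul_assoc]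
      t_inner := fun F G => by
        have h : z * (starRingEnd ℂ) z = 1 := by
          rw [Complex.mul_conj, Complex.normSq_eq_norm_sq, hz]; simp
        simp only [LinearMap.smul_apply, star_smul, RCLike.star_def, smul_mul_assoc,
          mul_smul_comm, smul_smul, h, one_smul]
        exact ρ.t_inner F G }
  exact hρ.lift _ ρ'

end MP_7ad892_an
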