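import Pool.Agent.Lib.MP_7ad892_an.Build

/-!
# MP_7ad892_an : the finite-dimensional representations detect the first column
-/

open scoped ZeroAtInfty Topology InnerProductSpace Classical
open Filter

namespace MP_7ad892_an

/-- identity theorem for power series with bounded coefficients -/
theorem coeff_eq_zero {c : ℕ → ℂ} {C : ℝ} (hC : ∀ n, ‖c n‖ ≤ C)
    (h : ∀ w : ℝ, 0 < w → w < 1 → HasSum (fun n => c n * (w : ℂ) ^ n) 0) : ∀ n, c n = 0 := by
  intro n
  induction n using Nat.strong_induction_on with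
  | _ n ih =>
  have hC0 : 0 ≤ C := (norm_nonneg _).trans (hC 0)
  have key : ∀ w : ℝ, 0 < w → w < 1 → ‖c n‖ ≤ C * w * (1 - w)⁻¹ := by
    intro w hw0 hw1
    have h1 := h w hw0 hw1
    have h2 : HasSum (fun k => c (k + n) * (w : ℂ) ^ (k + n)) 0 := by
      rw [hasSum_nat_add_iff (f := fun n => c n * (w : ℂ) ^ n) n]
      rw [Finset.sum_eq_zero, add_zero]
      · exact h1
      · intro i hi
        rw [ih i (Finset.mem_range.1 hi), zero_mul]
    have hwn : (w : ℂ) ^ n ≠ 0 := pow_ne_zero _ (by exact_mod_cast hw0.ne')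
    have h3 : HasSum (fun k => c (k + n) * (w : ℂ) ^ k) 0 := by
      have h := h2.mul_right ((w : ℂ) ^ n)⁻¹
      rw [zero_mul] at h
      have e : (fun k => c (k + n) * (w : ℂ) ^ (k + n) * ((w : ℂ) ^ n)⁻¹) =
          fun k => c (k + n) * (w : ℂ) ^ k := by
        ext k
        rw [pow_add]
        field_simp
      rwa [e] at h
    have h4 : HasSum (fun k => c (k + 1 + n) * (w : ℂ) ^ (k + 1)) (-c n) := by
      rw [hasSum_nat_add_iff (f := fun k => c (k + n) * (w : ℂ) ^ k) 1]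
      simpa using h3
    have h5 : HasSum (fun k : ℕ => C * w * w ^ k) (C * w * (1 - w)⁻¹) :=
      (hasSum_geometric_of_lt_one hw0.le hw1).mul_left _
    have h6 := tsum_of_norm_bounded h5 (f := fun k => c (k + 1 + n) * (w : ℂ) ^ (k + 1)) (by
      intro k
      rw [norm_mul, norm_pow, Complex.norm_real, Real.norm_of_nonneg hw0.le, pow_succ]
      calc ‖c (k + 1 + n)‖ * (w ^ k * w) ≤ C * (w ^ k * w) := by
            gcongr; exact hC _
        _ = C * w * w ^ k := by ring)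
    rw [h4.tsum_eq, norm_neg] at h6
    exact h6
  have hlim : Tendsto (fun w : ℝ => C * w * (1 - w)⁻¹) (𝓝[>] 0) (𝓝 (C * 0 * (1 - 0)⁻¹)) := by
    have : ContinuousAt (fun w : ℝ => C * w * (1 - w)⁻¹) 0 := by
      apply ContinuousAt.mul (by fun_prop)
      apply ContinuousAt.inv₀ (by fun_prop)
      norm_num
    exact this.tendsto.mono_left nhdsWithin_le_nhds
  rw [mul_zero, zero_mul] at hlim
  have hle : ‖c n‖ ≤ 0 := by
    apply ge_of_tendsto hlim
    have : Set.Ioo (0 : ℝ) 1 ∈ 𝓝[>] (0 : ℝ) := Ioo_mem_nhdsGT one_pos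
    filter_upwards [this] with w hw
    exact key w hw.1 hw.2
  exact norm_le_zero_iff.1 hle

theorem uv_smul {Ω : Type*} (σ : Ω → Ω) (x : Ω) (N : ℕ) (w : ℂ) (m : ℕ) :
    uv σ x N w m = w ^ m • uv σ x N 1 m := by
  induction m with
  | zero => simp [uv]
  | succ m ih =>
    change (Tm σ x N w).mulVec (uv σ x N w m) = _ • (Tm σ x N 1).mulVec (uv σ x N 1 m)
    have : Tm σ x N w = w • Tm σ x N 1 := by
      ext a b
      rw [Matrix.smul_apply, Tm, Tm, Matrix.of_apply, Matrix.of_apply]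
      split_ifs <;> simp
    rw [this, ih, Matrix.mulVec_smul, Matrix.smul_mulVec, smul_smul, pow_succ]

theorem exists_segment {Ω : Type*} (σ : Ω → Ω) (x : Ω) (n : ℕ) :
    ∃ N : ℕ, 0 < N ∧ (Function.Injective fun i : Fin N => σ^[i] x) ∧
      ∀ m ≤ n, ∃ b : Fin N, σ^[b] x = σ^[m] x := by
  by_cases h : Function.Injective fun i : Fin (n + 1) => σ^[i] x
  · exact ⟨n + 1, Nat.succ_pos n, h, fun m hm => ⟨⟨m, Nat.lt_succ_of_le hm⟩, rfl⟩⟩
  · have hP : ∃ M : ℕ, ∃ i < M, σ^[i] x = σ^[M] x := by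
      rw [Function.Injective] at h
      push Not at h
      obtain ⟨i, j, hij, hne⟩ := h
      rcases lt_or_gt_of_ne (fun h => hne (Fin.ext h)) with hlt | hlt
      · exact ⟨j, i, hlt, hij⟩
      · exact ⟨i, j, hlt, hij.symm⟩
    obtain ⟨i, hi, hix⟩ := Nat.find_spec hP
    set N := Nat.find hP with hN
    refine ⟨N, (Nat.zero_le i).trans_lt hi, ?_, ?_⟩
    · intro a b hab
      by_contra hne
      rcases lt_or_gt_of_ne (fun h => hne (Fin.ext h)) with hlt | hlt
      · exact Nat.find_min hP b.2 ⟨a, hlt, hab⟩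
      · exact Nat.find_min hP a.2 ⟨b, hlt, hab.symm⟩
    · intro m _
      induction m using Nat.strong_induction_on with
      | _ m ih =>
      by_cases hm : m < N
      · exact ⟨⟨m, hm⟩, rfl⟩
      · obtain ⟨k, rfl⟩ := Nat.exists_eq_add_of_le (not_lt.1 hm)
        obtain ⟨b, hb⟩ := ih (k + i) (by omega) (by omega)
        refine ⟨b, hb.trans ?_⟩
        rw [add_comm N k, Function.iterate_add_apply, Function.iterate_add_apply, hix]

section

variable {Ω : Type*} [TopologicalSpace Ω] [T2Space Ω] [LocallyCompactSpace Ω]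
  {σ : Ω → Ω} {hσ : IsProperMap σ} {A : Type*} [NonUnitalNormedRing A] [NormedSpace ℂ A]
  {s : CovSys hσ A} {x : Ω}

theorem first_column_eq_zero (Θ : A →L[ℂ] (H →L[ℂ] H)) (hΘ : ∀ a b, Θ (a * b) = Θ a * Θ b)
    (hπ : ∀ f n, Θ (s.π f) (be n) = f (σ^[n] x) • be n)
    (ht : ∀ F n, Θ (s.t F) (be n) = F (σ^[n] x) • be (n + 1))
    (c : A) (hc : ∀ (N : ℕ) (w : ℂ) (r : FinRep s x N w), r.ρ c = 0) : Θ c (be 0) = 0 := by
  ext n
  obtain ⟨N, hN, hinj, hmem⟩ := exists_segment σ x n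
  obtain ⟨a, ha⟩ := hmem n le_rfl
  set v : H := Θ c (be 0) with hv
  -- the coefficients of the power series
  have hκ : ∀ (w : ℂ) m, uv σ x N w m a = uv σ x N 1 m a * w ^ m := by
    intro w m
    rw [uv_smul, Pi.smul_apply, smul_eq_mul, mul_comm]
  have hser : ∀ w : ℝ, 0 < w → w < 1 →
      HasSum (fun m => ((v : ℕ → ℂ) m * uv σ x N 1 m a) * (w : ℂ) ^ m) 0 := by
    intro w hw0 hw1
    obtain ⟨r, K, hK1, hK2⟩ := exists_finRep (s := s) Θ hΘ hπ ht hN hinj (w := (w : ℂ))
      (by rw [Complex.norm_real, Real.norm_of_nonneg hw0.le]; exact hw1)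
      (by exact_mod_cast hw0.ne')
    have h1 := hK1 v a
    rw [hv, hK2, hc N w r, Matrix.zero_mulVec, Pi.zero_apply] at h1
    have e : (fun m => ((v : ℕ → ℂ) m * uv σ x N 1 m a) * (w : ℂ) ^ m) =
        fun m => ((Θ c (be 0) : H) : ℕ → ℂ) m * uv σ x N w m a := by
      ext m
      rw [hκ (w : ℂ) m, hv]
      ring
    rw [e]
    exact h1
  have hzero := coeff_eq_zero (C := ‖v‖ * 1) (fun m => by
    rw [norm_mul]
    have h1 := uv_norm_le (w := 1) hN hinj m a
    rw [norm_one, one_pow] at h1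
    gcongr
    exact lp.norm_apply_le_norm (by norm_num) v m) hser n
  have h1 : uv σ x N 1 n a = 1 := by
    rw [uv_of_mem hN hinj n (fun m hm => hmem m hm.le), if_pos ha, one_pow]
  rw [h1, mul_one] at hzero
  exact hzero

end

end MP_7ad892_an
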