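import Pool.Agent.Lib.MP_7ad892_an.Inj
import Pool.Agent.Lib.MP_7ad892_an.Sep
import Pool.Agent.Lib.MP_7ad892_an.Der

/-!
# MP_7ad892_an : the main theorem
-/

open scoped ZeroAtInfty Topology InnerProductSpace Classical ComplexConjugate
open Filter

namespace MP_7ad892_an

universe u

variable {Ω : Type u} [TopologicalSpace Ω] [T2Space Ω] [LocallyCompactSpace Ω]
  {σ : Ω → Ω} {hσ : IsProperMap σ} {B : Type u} [NonUnitalCStarAlgebra B] {ρ : ToeplitzRep hσ B}

theorem π_mem (ρ : ToeplitzRep hσ B) (f : C₀(Ω, ℂ)) : ρ.π f ∈ ρ.semicrossed :=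
  NonUnitalSubalgebra.le_topologicalClosure _ (NonUnitalAlgebra.subset_adjoin ℂ (Or.inl ⟨f, rfl⟩))

theorem t_mem (ρ : ToeplitzRep hσ B) (F : C₀(Ω, ℂ)) : ρ.t F ∈ ρ.semicrossed :=
  NonUnitalSubalgebra.le_topologicalClosure _ (NonUnitalAlgebra.subset_adjoin ℂ (Or.inr ⟨F, rfl⟩))

/-- the covariant system in the semicrossed product -/
noncomputable def covSys (ρ : ToeplitzRep hσ B) : CovSys hσ ρ.semicrossed where
  π :=
    { toFun := fun f => ⟨ρ.π f, π_mem ρ f⟩
      map_add' := fun f g => Subtype.ext (map_add ρ.π f g)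
      map_smul' := fun c f => Subtype.ext (map_smul ρ.π c f) }
  t :=
    { toFun := fun F => ⟨ρ.t F, t_mem ρ F⟩
      map_add' := fun f g => Subtype.ext (map_add ρ.t f g)
      map_smul' := fun c f => Subtype.ext (map_smul ρ.t c f) }
  π_mul := fun f g => Subtype.ext (map_mul ρ.π f g)
  t_left := fun f F => Subtype.ext (ρ.t_left f F)
  t_right := fun F g => Subtype.ext (ρ.t_right F g)
  dense := by
    intro S hS hπ ht a
    -- the image of `S` in `B`
    let S' : NonUnitalSubalgebra ℂ B := S.map (NonUnitalSubalgebraClass.subtype ρ.semicrossed)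
    have hclosed : IsClosed (ρ.semicrossed : Set B) :=
      NonUnitalSubalgebra.isClosed_topologicalClosure _
    have hS' : IsClosed (S' : Set B) := by
      have := hclosed.isClosedEmbedding_subtypeVal.isClosedMap _ hS
      exact this
    have h1 : NonUnitalAlgebra.adjoin ℂ (Set.range ρ.π ∪ Set.range ρ.t) ≤ S' := by
      apply NonUnitalAlgebra.adjoin_le
      rintro _ (⟨f, rfl⟩ | ⟨F, rfl⟩)
      · exact ⟨_, hπ f, rfl⟩
      · exact ⟨_, ht F, rfl⟩
    have h2 : ρ.semicrossed ≤ S' := NonUnitalSubalgebra.topologicalClosure_minimal h1 hS'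
    obtain ⟨b, hb, hba⟩ := h2 a.2
    have : b = a := Subtype.ext hba
    rw [← this]
    exact hb

theorem main (hρ : ρ.IsUniversal) (δ : ρ.semicrossed →L[ℂ] ρ.semicrossed)
    (hδ : IsApproxLocalDer δ) : IsDer δ := by
  have hex : ∀ x : Ω, ∃ Φ : B →⋆ₙₐ[ℂ] (H →L[ℂ] H),
      (∀ f, Φ (ρ.π f) = (orbitRep hσ x).π f) ∧ ∀ F, Φ (ρ.t F) = (orbitRep hσ x).t F :=
    fun x => hρ.lift₀ (orbitRep hσ x)
  choose Θ hΘ using hex
  have hπ : ∀ x f n, Θ x (ρ.π f) (be n) = f (σ^[n] x) • be n := by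
    intro x f n
    rw [(hΘ x).1, orbitRep_π_be]
  have ht : ∀ x F n, Θ x (ρ.t F) (be n) = F (σ^[n] x) • be (n + 1) := by
    intro x F n
    rw [(hΘ x).2, orbitRep_t_be]
  intro a b
  rw [← sub_eq_zero]
  set c : ρ.semicrossed := δ (a * b) - (δ a * b + a * δ b) with hc
  have hcol : ∀ x, Θ x (c : B) (be 0) = 0 := by
    intro x
    let Θ' : ρ.semicrossed →L[ℂ] (H →L[ℂ] H) :=
      { toFun := fun a => Θ x (a : B)
        map_add' := fun a b => map_add (Θ x) (a : B) (b : B)
        map_smul' := fun c a => map_smul (Θ x) c (a : B)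
        cont := (AddMonoidHomClass.continuous_of_bound (Θ x) 1 fun a => by
          simpa using NonUnitalStarAlgHom.norm_apply_le (Θ x) a).comp continuous_subtype_val }
    refine first_column_eq_zero (s := covSys ρ) Θ' (fun a b => map_mul (Θ x) (a : B) (b : B))
      (fun f n => hπ x f n) (fun F n => ht x F n) c ?_
    intro N w r
    rw [hc, map_sub, r.map_approxLocal δ hδ, sub_self]
  have h0 := eq_zero_of_first_columns (ρ := ρ) hρ.gauge Θ hπ ht c.2 hcol
  exact Subtype.ext h0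

end MP_7ad892_an
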