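import Pool.Agent.Lib.MP_7ad892_an.Defs

/-!
# MP_7ad892_an : the orbit representations on `ℓ²(ℕ)`
-/

open scoped ZeroAtInfty Topology InnerProductSpace
open Filter

namespace MP_7ad892_an

/-- `ℓ²(ℕ)` -/
abbrev H : Type := lp (fun _ : ℕ => ℂ) 2

/-- standard basis vector -/
noncomputable def be (n : ℕ) : H := lp.single 2 n (1 : ℂ)

theorem be_apply (n m : ℕ) : (be n : ℕ → ℂ) m = if m = n then 1 else 0 := by
  unfold be
  rw [lp.coeFn_single, Pi.single_apply]

theorem be_orthonormal : Orthonormal ℂ be := by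
  rw [orthonormal_iff_ite]
  intro i j
  unfold be
  rw [lp.inner_single_left]
  have : ((lp.single 2 j (1 : ℂ) : H) : ℕ → ℂ) i = if i = j then 1 else 0 := by
    rw [lp.coeFn_single, Pi.single_apply]
  rw [this]
  split_ifs <;> simp

theorem H_ext {F : Type*} [NormedAddCommGroup F] [NormedSpace ℂ F] {S T : H →L[ℂ] F}
    (h : ∀ n, S (be n) = T (be n)) : S = T := by
  apply lp.ext_continuousLinearMap (by norm_num)
  intro n
  ext
  simpa [lp.singleContinuousLinearMap_apply, be] using h n

/-- the unilateral shift -/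
noncomputable def shift : H →ₗᵢ[ℂ] H :=
  (be_orthonormal.comp (fun n : ℕ => n + 1) (add_left_injective 1)).orthogonalFamily.linearIsometry

theorem shift_be (n : ℕ) : shift (be n) = be (n + 1) := by
  unfold shift
  have := (be_orthonormal.comp (fun n : ℕ => n + 1)
    (add_left_injective 1)).orthogonalFamily.linearIsometry_apply_single (i := n) (1 : ℂ)
  rw [show be n = lp.single 2 n (1 : ℂ) from rfl, this]
  simp

section

variable {Ω : Type*} [TopologicalSpace Ω] [T2Space Ω] [LocallyCompactSpace Ω]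

/-- multiplication by `n ↦ f (σ^n x)` -/
noncomputable def dg (σ : Ω → Ω) (x : Ω) (f : C₀(Ω, ℂ)) : H →L[ℂ] H :=
  lp.mapCLM (E := fun _ : ℕ => ℂ) (F := fun _ : ℕ => ℂ) 2
    (fun n => f (σ^[n] x) • ContinuousLinearMap.id ℂ ℂ) (K := ‖f‖)
    (norm_nonneg f) (fun n => by
      rw [norm_smul]
      calc ‖f (σ^[n] x)‖ * ‖ContinuousLinearMap.id ℂ ℂ‖ ≤ ‖f (σ^[n] x)‖ * 1 := by
            gcongr; exact ContinuousLinearMap.norm_id_le
        _ ≤ ‖f‖ := by
            rw [mul_one]
            exact f.toBCF.norm_coe_le_norm _)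

omit [T2Space Ω] [LocallyCompactSpace Ω] in
theorem dg_apply (σ : Ω → Ω) (x : Ω) (f : C₀(Ω, ℂ)) (v : H) (n : ℕ) :
    (dg σ x f v : ℕ → ℂ) n = f (σ^[n] x) * (v : ℕ → ℂ) n := by
  rfl

omit [T2Space Ω] [LocallyCompactSpace Ω] in
theorem dg_be (σ : Ω → Ω) (x : Ω) (f : C₀(Ω, ℂ)) (n : ℕ) :
    dg σ x f (be n) = f (σ^[n] x) • be n := by
  ext m
  rw [dg_apply, be_apply, lp.coeFn_smul, Pi.smul_apply, be_apply]
  split_ifs with h
  · subst h; rfl
  · simp

omit [T2Space Ω] [LocallyCompactSpace Ω] in
theorem dg_star (σ : Ω → Ω) (x : Ω) (f : C₀(Ω, ℂ)) : dg σ x (star f) = star (dg σ x f) := by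
  rw [ContinuousLinearMap.star_eq_adjoint, ContinuousLinearMap.eq_adjoint_iff]
  intro u v
  rw [lp.inner_eq_tsum, lp.inner_eq_tsum]
  congr 1
  ext n
  rw [dg_apply, dg_apply]
  simp only [RCLike.inner_apply, ZeroAtInftyContinuousMap.star_apply, map_mul, RCLike.star_def,
    RCLike.conj_conj]
  ring

theorem shift_dg {σ : Ω → Ω} (hσ : IsProperMap σ) (x : Ω) (f : C₀(Ω, ℂ)) :
    dg σ x f ∘L shift.toContinuousLinearMap =
      shift.toContinuousLinearMap ∘L dg σ x (pull hσ f) := by
  apply H_ext
  intro n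
  simp only [ContinuousLinearMap.comp_apply, LinearIsometry.coe_toContinuousLinearMap, shift_be,
    dg_be, map_smul, pull_apply]
  rw [Function.iterate_succ_apply']

/-- `dg` as a *-homomorphism -/
noncomputable def dgHom (σ : Ω → Ω) (x : Ω) : C₀(Ω, ℂ) →⋆ₙₐ[ℂ] (H →L[ℂ] H) where
  toFun := dg σ x
  map_smul' := fun c f => by
    ext v n
    rw [dg_apply]
    simp [dg_apply, mul_assoc]
  map_zero' := by
    ext v n
    rw [dg_apply]
    simp
  map_add' := fun f g => by
    ext v n
    rw [dg_apply]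
    simp [dg_apply, add_mul]
  map_mul' := fun f g => by
    ext v n
    rw [dg_apply]
    simp [dg_apply, mul_assoc]
  map_star' := fun f => dg_star σ x f

/-- the orbit representation of a point, as a Toeplitz representation on `ℓ²(ℕ)` -/
noncomputable def orbitRep {σ : Ω → Ω} (hσ : IsProperMap σ) (x : Ω) :
    ToeplitzRep hσ (H →L[ℂ] H) where
  π := dgHom σ x
  t :=
    { toFun := fun F => shift.toContinuousLinearMap * dgHom σ x F
      map_add' := fun f g => by
        rw [map_add, mul_add]
      map_smul' := fun c f => by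
        rw [RingHom.id_apply, map_smul, mul_smul_comm] }
  t_left := fun f F => by
    have h := shift_dg hσ x f
    change shift.toContinuousLinearMap * dgHom σ x (pull hσ f * F) =
      dgHom σ x f * (shift.toContinuousLinearMap * dgHom σ x F)
    rw [map_mul, ← mul_assoc, ← mul_assoc]
    congr 1
    exact h.symm
  t_right := fun F g => by
    change shift.toContinuousLinearMap * dgHom σ x (F * g) =
      (shift.toContinuousLinearMap * dgHom σ x F) * dgHom σ x g
    rw [map_mul, mul_assoc]
  t_inner := fun F G => by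
    change star (shift.toContinuousLinearMap * dgHom σ x F) *
      (shift.toContinuousLinearMap * dgHom σ x G) = dgHom σ x (star F * G)
    have h : star (shift.toContinuousLinearMap : H →L[ℂ] H) * shift.toContinuousLinearMap = 1 := by
      rw [ContinuousLinearMap.star_eq_adjoint]
      ext1 v
      apply ext_inner_left ℂ
      intro u
      rw [ContinuousLinearMap.mul_def, ContinuousLinearMap.comp_apply, ContinuousLinearMap.adjoint_inner_right]
      simp
    rw [star_mul, mul_assoc, ← mul_assoc (star _) (shift.toContinuousLinearMap : H →L[ℂ] H), h,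
      one_mul, map_mul, map_star]

theorem orbitRep_π_be {σ : Ω → Ω} (hσ : IsProperMap σ) (x : Ω) (f : C₀(Ω, ℂ)) (n : ℕ) :
    (orbitRep hσ x).π f (be n) = f (σ^[n] x) • be n := dg_be σ x f n

theorem orbitRep_t_be {σ : Ω → Ω} (hσ : IsProperMap σ) (x : Ω) (F : C₀(Ω, ℂ)) (n : ℕ) :
    (orbitRep hσ x).t F (be n) = F (σ^[n] x) • be (n + 1) := by
  change shift.toContinuousLinearMap (dg σ x F (be n)) = _
  rw [dg_be, map_smul, LinearIsometry.coe_toContinuousLinearMap, shift_be]

end

end MP_7ad892_an
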